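import Pool.Agent.H140.TH.Disk

/-!
Polyominoes as closed regions of the plane `ℂ`, and the proof that certain polyominoes are
topological disks, by adding the cells one after the other.
-/

namespace Pool.Agent.H140.OM
open Set Metric Filter Topology

/-- the closed unit square of the square grid with lower left corner `c` -/
def cell (c : ℤ × ℤ) : Set ℂ :=
  {z | ((c.1 : ℝ) ≤ z.re ∧ z.re ≤ c.1 + 1) ∧ ((c.2 : ℝ) ≤ z.im ∧ z.im ≤ c.2 + 1)}

/-- the union of the closed unit squares in `C` -/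
def region (C : Finset (ℤ × ℤ)) : Set ℂ := ⋃ c ∈ C, cell c

/-- topological disks -/
def IsDisk (R : Set ℂ) : Prop := Nonempty (R ≃ₜ closedBall (0 : ℂ) 1)

/-- `R` is an `n`-omino: a topological disk that is the union of `n` closed unit squares of the
square grid. -/
def IsOmino (n : ℕ) (R : Set ℂ) : Prop :=
  IsDisk R ∧ ∃ C : Finset (ℤ × ℤ), C.card = n ∧ R = region C

lemma mem_cell {c : ℤ × ℤ} {z : ℂ} : z ∈ cell c ↔
    ((c.1 : ℝ) ≤ z.re ∧ z.re ≤ c.1 + 1) ∧ ((c.2 : ℝ) ≤ z.im ∧ z.im ≤ c.2 + 1) := Iff.rfl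

lemma mem_region {C : Finset (ℤ × ℤ)} {z : ℂ} : z ∈ region C ↔ ∃ c ∈ C, z ∈ cell c := by
  simp [region]

/-- closed rectangle -/
def rect (a b c d : ℝ) : Set ℂ := {z | (a ≤ z.re ∧ z.re ≤ b) ∧ (c ≤ z.im ∧ z.im ≤ d)}

lemma rect_convex (a b c d : ℝ) : Convex ℝ (rect a b c d) := by
  have h1 : IsLinearMap ℝ Complex.re := Complex.reLm.isLinear
  have h2 : IsLinearMap ℝ Complex.im := Complex.imLm.isLinear
  exact ((convex_halfSpace_ge h1 a).inter (convex_halfSpace_le h1 b)).inter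
    ((convex_halfSpace_ge h2 c).inter (convex_halfSpace_le h2 d))

lemma rect_closed (a b c d : ℝ) : IsClosed (rect a b c d) := by
  exact ((isClosed_le continuous_const Complex.continuous_re).inter
    (isClosed_le Complex.continuous_re continuous_const)).inter
    ((isClosed_le continuous_const Complex.continuous_im).inter
    (isClosed_le Complex.continuous_im continuous_const))

lemma rect_compact (a b c d : ℝ) : IsCompact (rect a b c d) := by
  refine Metric.isCompact_of_isClosed_isBounded (rect_closed a b c d) ?_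
  refine (Metric.isBounded_closedBall (x := (0 : ℂ)) (r := (|a| + |b|) + (|c| + |d|))).subset ?_
  rintro z ⟨⟨h1, h2⟩, h3, h4⟩
  rw [mem_closedBall, dist_zero_right]
  refine (Complex.norm_le_abs_re_add_abs_im z).trans ?_
  have h5 : |z.re| ≤ |a| + |b| := by
    rw [abs_le]; constructor
    · have := neg_abs_le a; have := abs_nonneg b; linarith
    · have := le_abs_self b; have := abs_nonneg a; linarith
  have h6 : |z.im| ≤ |c| + |d| := by
    rw [abs_le]; constructor
    · have := neg_abs_le c; have := abs_nonneg d; linarith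
    · have := le_abs_self d; have := abs_nonneg c; linarith
  linarith

/-- open rectangle -/
def orect (a b c d : ℝ) : Set ℂ := {z | (a < z.re ∧ z.re < b) ∧ (c < z.im ∧ z.im < d)}

lemma orect_open (a b c d : ℝ) : IsOpen (orect a b c d) := by
  exact ((isOpen_lt continuous_const Complex.continuous_re).inter
    (isOpen_lt Complex.continuous_re continuous_const)).inter
    ((isOpen_lt continuous_const Complex.continuous_im).inter
    (isOpen_lt Complex.continuous_im continuous_const))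

lemma orect_sub (a b c d : ℝ) : orect a b c d ⊆ rect a b c d := by
  rintro z ⟨⟨h1, h2⟩, h3, h4⟩
  exact ⟨⟨le_of_lt h1, le_of_lt h2⟩, le_of_lt h3, le_of_lt h4⟩

lemma cell_eq (c : ℤ × ℤ) : cell c = rect c.1 (c.1 + 1) c.2 (c.2 + 1) := rfl

/-- open cell -/
def ocell (c : ℤ × ℤ) : Set ℂ := orect c.1 (c.1 + 1) c.2 (c.2 + 1)

lemma ocell_open (c : ℤ × ℤ) : IsOpen (ocell c) := orect_open _ _ _ _
lemma ocell_sub (c : ℤ × ℤ) : ocell c ⊆ cell c := orect_sub _ _ _ _
lemma cell_convex (c : ℤ × ℤ) : Convex ℝ (cell c) := rect_convex _ _ _ _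
lemma cell_compact (c : ℤ × ℤ) : IsCompact (cell c) := rect_compact _ _ _ _
lemma cell_closed (c : ℤ × ℤ) : IsClosed (cell c) := rect_closed _ _ _ _

lemma region_closed (C : Finset (ℤ × ℤ)) : IsClosed (region C) := by
  unfold region
  exact C.finite_toSet.isClosed_biUnion fun c _ => cell_closed c

lemma region_compact (C : Finset (ℤ × ℤ)) : IsCompact (region C) := by
  unfold region
  exact C.finite_toSet.isCompact_biUnion fun c _ => cell_compact c

/-- centre of a cell -/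
noncomputable def ctr (c : ℤ × ℤ) : ℂ := ⟨c.1 + 1 / 2, c.2 + 1 / 2⟩

lemma ctr_mem (c : ℤ × ℤ) : ctr c ∈ ocell c := by
  refine ⟨⟨?_, ?_⟩, ?_, ?_⟩ <;> simp [ctr] <;> norm_num

/-- a point of an open cell is in no other closed cell -/
lemma ocell_cell {c d : ℤ × ℤ} {z : ℂ} (h1 : z ∈ ocell c) (h2 : z ∈ cell d) : c = d := by
  obtain ⟨⟨a1, a2⟩, a3, a4⟩ := h1
  obtain ⟨⟨b1, b2⟩, b3, b4⟩ := h2
  have c1 : c.1 < d.1 + 1 := by
    have : (c.1 : ℝ) < d.1 + 1 := by linarith
    exact_mod_cast this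
  have c2 : d.1 < c.1 + 1 := by
    have : (d.1 : ℝ) < c.1 + 1 := by linarith
    exact_mod_cast this
  have c3 : c.2 < d.2 + 1 := by
    have : (c.2 : ℝ) < d.2 + 1 := by linarith
    exact_mod_cast this
  have c4 : d.2 < c.2 + 1 := by
    have : (d.2 : ℝ) < c.2 + 1 := by linarith
    exact_mod_cast this
  ext <;> omega

lemma cell_closure (c : ℤ × ℤ) : cell c ⊆ closure (ocell c) := by
  have h1 : ocell c ⊆ interior (cell c) := interior_maximal (ocell_sub c) (ocell_open c)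
  have h2 : interior (cell c) ⊆ ocell c := by
    -- interior points satisfy strict inequalities
    intro z hz
    obtain ⟨ε, hε, hb⟩ := Metric.isOpen_iff.1 isOpen_interior z hz
    have key : ∀ w : ℂ, ‖w‖ < ε → z + w ∈ cell c := by
      intro w hw
      apply interior_subset
      apply hb
      rw [mem_ball, Complex.dist_eq]
      simpa using hw
    have e1 := key ((ε / 2 : ℝ) : ℂ) (by
      rw [Complex.norm_real, Real.norm_eq_abs, abs_of_pos (by positivity)]; linarith)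
    have e2 := key (-((ε / 2 : ℝ) : ℂ)) (by
      rw [norm_neg, Complex.norm_real, Real.norm_eq_abs, abs_of_pos (by positivity)]; linarith)
    have e3 := key (((ε / 2 : ℝ) : ℂ) * Complex.I) (by
      rw [norm_mul, Complex.norm_I, mul_one, Complex.norm_real, Real.norm_eq_abs,
        abs_of_pos (by positivity)]; linarith)
    have e4 := key (-(((ε / 2 : ℝ) : ℂ) * Complex.I)) (by
      rw [norm_neg, norm_mul, Complex.norm_I, mul_one, Complex.norm_real, Real.norm_eq_abs,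
        abs_of_pos (by positivity)]; linarith)
    rw [mem_cell] at e1 e2 e3 e4
    simp at e1 e2 e3 e4
    refine ⟨⟨?_, ?_⟩, ?_, ?_⟩ <;> linarith
  have h3 : (interior (cell c)).Nonempty := ⟨_, h1 (ctr_mem c)⟩
  have h4 := (cell_convex c).closure_interior_eq_closure_of_nonempty_interior h3
  exact (subset_closure.trans h4.symm.subset).trans (closure_mono h2)

/-- the main tool for showing that polyominoes are disks -/
theorem push {K₁ K₂ W : Set ℂ} (c : ℂ) (hc₁ : Convex ℝ K₁) (hc₂ : Convex ℝ K₂)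
    (hk₁ : IsCompact K₁) (hk₂ : IsCompact K₂) (h₁ : K₁ ∈ 𝓝 c) (h₂ : K₂ ∈ 𝓝 c) (hW : IsClosed W)
    (h21 : K₂ ⊆ K₁) (h : ∀ z ∈ W, z ∈ K₁ → z ∈ K₂ ∧ z ∉ interior K₁) :
    Nonempty (↥(K₁ ∪ W) ≃ₜ ↥(K₂ ∪ W)) := by
  classical
  have tr : ∀ K : Set ℂ, Convex ℝ K → IsCompact K → K ∈ 𝓝 c →
      Convex ℝ ((fun z => z + c) ⁻¹' K) ∧ IsCompact ((fun z => z + c) ⁻¹' K) ∧
      (fun z => z + c) ⁻¹' K ∈ 𝓝 (0 : ℂ) := by
    intro K hc hk hn
    refine ⟨?_, ?_, ?_⟩
    · exact hc.translate_preimage_left c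
    · exact (Homeomorph.addRight c).isCompact_preimage.2 hk
    · have : Continuous (fun z : ℂ => z + c) := by fun_prop
      apply this.continuousAt.preimage_mem_nhds
      simpa using hn
  obtain ⟨a1, a2, a3⟩ := tr K₁ hc₁ hk₁ h₁
  obtain ⟨b1, b2, b3⟩ := tr K₂ hc₂ hk₂ h₂
  set A : Set ℂ := (fun z => z + c) ⁻¹' K₁ with hA
  set B : Set ℂ := (fun z => z + c) ⁻¹' K₂ with hB
  have vA : Bornology.IsVonNBounded ℝ A := (NormedSpace.isVonNBounded_iff ℝ).2 a2.isBounded
  have vB : Bornology.IsVonNBounded ℝ B := (NormedSpace.isVonNBounded_iff ℝ).2 b2.isBounded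
  let G0 : ℂ ≃ₜ ℂ := gaugeRescaleHomeomorph A B a1 a3 vA b1 b3 vB
  have hG0 : G0 '' A = B := by
    have := image_gaugeRescaleHomeomorph_closure a1 a3 vA b1 b3 vB
    rwa [a2.isClosed.closure_eq, b2.isClosed.closure_eq] at this
  let G : ℂ ≃ₜ ℂ := ((Homeomorph.addRight (-c)).trans G0).trans (Homeomorph.addRight c)
  have hG : ∀ z, G z = G0 (z - c) + c := by
    intro z
    simp [G, sub_eq_add_neg]
  have hGK : ∀ z, G z ∈ K₂ ↔ z ∈ K₁ := by
    intro z
    have h3 : G z ∈ K₂ ↔ G0 (z - c) ∈ B := by rw [hG]; rfl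
    rw [h3, ← hG0]
    constructor
    · rintro ⟨y, hy, hyz⟩
      have := G0.injective hyz
      subst this
      have : (z - c) + c ∈ K₁ := hy
      simpa using this
    · intro hz
      exact ⟨z - c, by show (z - c) + c ∈ K₁; simpa using hz, rfl⟩
  have hfix : ∀ z ∈ W, z ∈ K₁ → G z = z := by
    intro z hz hz1
    obtain ⟨hz2, hz3⟩ := h z hz hz1
    have hz4 : z ∉ interior K₂ := fun h5 => hz3 (interior_mono h21 h5)
    have tri : ∀ K : Set ℂ, (z - c) ∈ interior ((fun z => z + c) ⁻¹' K) → z ∈ interior K := by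
      intro K hK
      have e : (fun z : ℂ => z + c) ⁻¹' K = (Homeomorph.addRight c) ⁻¹' K := rfl
      rw [e, ← (Homeomorph.addRight c).preimage_interior] at hK
      have : (z - c) + c ∈ interior K := hK
      simpa using this
    have g1 : gauge A (z - c) = 1 := by
      rw [gauge_eq_one_iff_mem_frontier a1 a3, frontier, a2.isClosed.closure_eq]
      exact ⟨by show (z - c) + c ∈ K₁; simpa using hz1, fun h5 => hz3 (tri _ h5)⟩
    have g2 : gauge B (z - c) = 1 := by
      rw [gauge_eq_one_iff_mem_frontier b1 b3, frontier, b2.isClosed.closure_eq]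
      exact ⟨by show (z - c) + c ∈ K₂; simpa using hz2, fun h5 => hz4 (tri _ h5)⟩
    rw [hG]
    have : G0 (z - c) = gaugeRescale A B (z - c) := rfl
    rw [this, gaugeRescale, g1, g2]
    simp
  let Φ : ℂ → ℂ := fun z => if z ∈ K₁ then G z else z
  let Ψ : ℂ → ℂ := fun z => if z ∈ K₂ then G.symm z else z
  have hΦ1 : ∀ z ∈ K₁, Φ z = G z := fun z hz => if_pos hz
  have hΦW : ∀ z ∈ W, Φ z = z := by
    intro z hz
    by_cases h5 : z ∈ K₁
    · rw [hΦ1 z h5, hfix z hz h5]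
    · exact if_neg h5
  have hΨ2 : ∀ z ∈ K₂, Ψ z = G.symm z := fun z hz => if_pos hz
  have hΨW : ∀ z ∈ W, Ψ z = z := by
    intro z hz
    by_cases h5 : z ∈ K₂
    · rw [hΨ2 z h5, Homeomorph.symm_apply_eq, hfix z hz (h21 h5)]
    · exact if_neg h5
  have mΦ : ∀ z ∈ K₁ ∪ W, Φ z ∈ K₂ ∪ W := by
    rintro z (hz | hz)
    · left; rw [hΦ1 z hz]; exact (hGK z).2 hz
    · right; rw [hΦW z hz]; exact hz
  have mΨ : ∀ z ∈ K₂ ∪ W, Ψ z ∈ K₁ ∪ W := by
    rintro z (hz | hz)
    · left; rw [hΨ2 z hz]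
      rw [← hGK, Homeomorph.apply_symm_apply]; exact hz
    · right; rw [hΨW z hz]; exact hz
  have ΨΦ : ∀ z ∈ K₁ ∪ W, Ψ (Φ z) = z := by
    rintro z (hz | hz)
    · rw [hΦ1 z hz, hΨ2 _ ((hGK z).2 hz), Homeomorph.symm_apply_apply]
    · rw [hΦW z hz, hΨW z hz]
  have ΦΨ : ∀ z ∈ K₂ ∪ W, Φ (Ψ z) = z := by
    rintro z (hz | hz)
    · rw [hΨ2 z hz, hΦ1, Homeomorph.apply_symm_apply]
      rw [← hGK, Homeomorph.apply_symm_apply]; exact hz
    · rw [hΨW z hz, hΦW z hz]
  have cΦ : ContinuousOn Φ (K₁ ∪ W) := by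
    refine ContinuousOn.union_of_isClosed ?_ ?_ hk₁.isClosed hW
    · exact G.continuous.continuousOn.congr hΦ1
    · exact continuousOn_id.congr hΦW
  have cΨ : ContinuousOn Ψ (K₂ ∪ W) := by
    refine ContinuousOn.union_of_isClosed ?_ ?_ hk₂.isClosed hW
    · exact G.symm.continuous.continuousOn.congr hΨ2
    · exact continuousOn_id.congr hΨW
  exact ⟨
    { toFun := fun z => ⟨Φ z.1, mΦ z.1 z.2⟩
      invFun := fun z => ⟨Ψ z.1, mΨ z.1 z.2⟩
      left_inv := fun z => Subtype.ext (ΨΦ z.1 z.2)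
      right_inv := fun z => Subtype.ext (ΦΨ z.1 z.2)
      continuous_toFun := (continuousOn_iff_continuous_domRestrict.1 cΦ).subtype_mk _
      continuous_invFun := (continuousOn_iff_continuous_domRestrict.1 cΨ).subtype_mk _ }⟩

/-- edge-adjacent cells -/
def adj (a b : ℤ × ℤ) : Prop := (a.1 - b.1).natAbs + (a.2 - b.2).natAbs = 1
/-- disjoint cells -/
def far (a b : ℤ × ℤ) : Prop := 2 ≤ (a.1 - b.1).natAbs ∨ 2 ≤ (a.2 - b.2).natAbs
/-- diagonal cells -/
def diag (a b : ℤ × ℤ) : Prop := (a.1 - b.1).natAbs = 1 ∧ (a.2 - b.2).natAbs = 1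

instance : DecidableRel adj := fun a b => by unfold adj; infer_instance
instance : DecidableRel far := fun a b => by unfold far; infer_instance
instance : DecidableRel diag := fun a b => by unfold diag; infer_instance

/-- the cell `q` can be added to `C` at its edge-neighbour `q'` without changing the topology -/
def addable (C : List (ℤ × ℤ)) (q q' : ℤ × ℤ) : Prop :=
  q ∉ C ∧ q' ∈ C ∧ adj q q' ∧ ∀ r ∈ C, r ≠ q' → far r q ∨ (diag r q ∧ adj r q')

instance (C : List (ℤ × ℤ)) (q q' : ℤ × ℤ) : Decidable (addable C q q') := by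
  unfold addable; infer_instance

lemma adj_symm {a b : ℤ × ℤ} (h : adj a b) : adj b a := by
  unfold adj at *; omega

lemma cell_far {a b : ℤ × ℤ} (h : far a b) {z : ℂ} (h1 : z ∈ cell a) (h2 : z ∈ cell b) : False := by
  obtain ⟨⟨a1, a2⟩, a3, a4⟩ := h1
  obtain ⟨⟨b1, b2⟩, b3, b4⟩ := h2
  have c1 : a.1 ≤ b.1 + 1 := by
    have : (a.1 : ℝ) ≤ b.1 + 1 := by linarith
    exact_mod_cast this
  have c2 : b.1 ≤ a.1 + 1 := by
    have : (b.1 : ℝ) ≤ a.1 + 1 := by linarith
    exact_mod_cast this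
  have c3 : a.2 ≤ b.2 + 1 := by
    have : (a.2 : ℝ) ≤ b.2 + 1 := by linarith
    exact_mod_cast this
  have c4 : b.2 ≤ a.2 + 1 := by
    have : (b.2 : ℝ) ≤ a.2 + 1 := by linarith
    exact_mod_cast this
  unfold far at h
  omega

/-- the common point of two diagonal cells is in every cell adjacent to both (here: adjacent to
both `a` and `b`) -/
lemma cell_diag {a b c : ℤ × ℤ} (h : diag a b) (hac : adj a c) (hbc : adj b c) {z : ℂ}
    (h1 : z ∈ cell a) (h2 : z ∈ cell b) : z ∈ cell c := by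
  obtain ⟨⟨a1, a2⟩, a3, a4⟩ := h1
  obtain ⟨⟨b1, b2⟩, b3, b4⟩ := h2
  unfold diag at h
  unfold adj at hac hbc
  have hx : a.1 = b.1 + 1 ∨ b.1 = a.1 + 1 := by omega
  have hy : a.2 = b.2 + 1 ∨ b.2 = a.2 + 1 := by omega
  have hc : (c.1 = a.1 ∧ c.2 = b.2) ∨ (c.1 = b.1 ∧ c.2 = a.2) := by omega
  rcases hc with ⟨e1, e2⟩ | ⟨e1, e2⟩
  · rw [mem_cell, e1, e2]; exact ⟨⟨a1, a2⟩, b3, b4⟩
  · rw [mem_cell, e1, e2]; exact ⟨⟨b1, b2⟩, a3, a4⟩

lemma union_rect {q q' : ℤ × ℤ} (h : adj q q') : ∃ a b c d : ℝ, cell q ∪ cell q' = rect a b c d := by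
  unfold adj at h
  have hc : (q.1 = q'.1 + 1 ∧ q.2 = q'.2) ∨ (q'.1 = q.1 + 1 ∧ q.2 = q'.2) ∨
      (q.1 = q'.1 ∧ q.2 = q'.2 + 1) ∨ (q.1 = q'.1 ∧ q'.2 = q.2 + 1) := by omega
  rcases hc with ⟨e1, e2⟩ | ⟨e1, e2⟩ | ⟨e1, e2⟩ | ⟨e1, e2⟩
  · refine ⟨q'.1, q'.1 + 2, q'.2, q'.2 + 1, ?_⟩
    ext z
    simp only [mem_union, mem_cell, rect, mem_ofPred_eq, e1, e2]
    push_cast
    constructor
    · rintro (⟨⟨h1, h2⟩, h3, h4⟩ | ⟨⟨h1, h2⟩, h3, h4⟩) <;> refine ⟨⟨?_, ?_⟩, ?_, ?_⟩ <;> linarith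
    · rintro ⟨⟨h1, h2⟩, h3, h4⟩
      rcases le_total z.re (q'.1 + 1) with h5 | h5
      · right; refine ⟨⟨?_, ?_⟩, ?_, ?_⟩ <;> linarith
      · left; refine ⟨⟨?_, ?_⟩, ?_, ?_⟩ <;> linarith
  · refine ⟨q.1, q.1 + 2, q'.2, q'.2 + 1, ?_⟩
    ext z
    simp only [mem_union, mem_cell, rect, mem_ofPred_eq, e1, e2]
    push_cast
    constructor
    · rintro (⟨⟨h1, h2⟩, h3, h4⟩ | ⟨⟨h1, h2⟩, h3, h4⟩) <;> refine ⟨⟨?_, ?_⟩, ?_, ?_⟩ <;> linarith
    · rintro ⟨⟨h1, h2⟩, h3, h4⟩
      rcases le_total z.re (q.1 + 1) with h5 | h5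
      · left; refine ⟨⟨?_, ?_⟩, ?_, ?_⟩ <;> linarith
      · right; refine ⟨⟨?_, ?_⟩, ?_, ?_⟩ <;> linarith
  · refine ⟨q'.1, q'.1 + 1, q'.2, q'.2 + 2, ?_⟩
    ext z
    simp only [mem_union, mem_cell, rect, mem_ofPred_eq, e1, e2]
    push_cast
    constructor
    · rintro (⟨⟨h1, h2⟩, h3, h4⟩ | ⟨⟨h1, h2⟩, h3, h4⟩) <;> refine ⟨⟨?_, ?_⟩, ?_, ?_⟩ <;> linarith
    · rintro ⟨⟨h1, h2⟩, h3, h4⟩
      rcases le_total z.im (q'.2 + 1) with h5 | h5
      · right; refine ⟨⟨?_, ?_⟩, ?_, ?_⟩ <;> linarith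
      · left; refine ⟨⟨?_, ?_⟩, ?_, ?_⟩ <;> linarith
  · refine ⟨q'.1, q'.1 + 1, q.2, q.2 + 2, ?_⟩
    ext z
    simp only [mem_union, mem_cell, rect, mem_ofPred_eq, e1, e2]
    push_cast
    constructor
    · rintro (⟨⟨h1, h2⟩, h3, h4⟩ | ⟨⟨h1, h2⟩, h3, h4⟩) <;> refine ⟨⟨?_, ?_⟩, ?_, ?_⟩ <;> linarith
    · rintro ⟨⟨h1, h2⟩, h3, h4⟩
      rcases le_total z.im (q.2 + 1) with h5 | h5
      · left; refine ⟨⟨?_, ?_⟩, ?_, ?_⟩ <;> linarith
      · right; refine ⟨⟨?_, ?_⟩, ?_, ?_⟩ <;> linarith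

lemma isDisk_cell (c : ℤ × ℤ) : IsDisk (cell c) := by
  have hn : cell c ∈ 𝓝 (ctr c) :=
    Filter.mem_of_superset ((ocell_open c).mem_nhds (ctr_mem c)) (ocell_sub c)
  have := Pool.Agent.H140.TH.disk_union (ctr c) (cell_convex c) (cell_convex c) (cell_convex c)
    (cell_compact c) (cell_compact c) (cell_compact c) hn hn hn
  rwa [union_self, union_self] at this

lemma isDisk_add {C : List (ℤ × ℤ)} {q q' : ℤ × ℤ} (h : addable C q q')
    (hC : IsDisk (region C.toFinset)) : IsDisk (region (q :: C).toFinset) := by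
  classical
  obtain ⟨hq, hq', hadj, hr⟩ := h
  set W : Set ℂ := region (C.toFinset.erase q') with hW
  have e1 : region (q :: C).toFinset = (cell q ∪ cell q') ∪ W := by
    ext z
    simp only [mem_region, List.toFinset_cons, Finset.mem_insert, List.mem_toFinset, mem_union, hW,
      Finset.mem_erase]
    constructor
    · rintro ⟨c, rfl | hc, hz⟩
      · left; left; exact hz
      · by_cases h : c = q'
        · subst h; left; right; exact hz
        · right; exact ⟨c, ⟨h, hc⟩, hz⟩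
    · rintro ((h | h) | ⟨c, ⟨h1, h2⟩, h3⟩)
      · exact ⟨q, Or.inl rfl, h⟩
      · exact ⟨q', Or.inr hq', h⟩
      · exact ⟨c, Or.inr h2, h3⟩
  have e2 : region C.toFinset = cell q' ∪ W := by
    ext z
    simp only [mem_region, List.mem_toFinset, mem_union, hW, Finset.mem_erase]
    constructor
    · rintro ⟨c, hc, hz⟩
      by_cases h : c = q'
      · subst h; left; exact hz
      · right; exact ⟨c, ⟨h, hc⟩, hz⟩
    · rintro (h | ⟨c, ⟨h1, h2⟩, h3⟩)
      · exact ⟨q', hq', h⟩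
      · exact ⟨c, h2, h3⟩
  obtain ⟨a, b, c, d, hrect⟩ := union_rect hadj
  have hn2 : cell q' ∈ 𝓝 (ctr q') :=
    Filter.mem_of_superset ((ocell_open q').mem_nhds (ctr_mem q')) (ocell_sub q')
  have hn1 : cell q ∪ cell q' ∈ 𝓝 (ctr q') := Filter.mem_of_superset hn2 subset_union_right
  have hp := push (K₁ := cell q ∪ cell q') (K₂ := cell q') (W := W) (ctr q')
    (by rw [hrect]; exact rect_convex _ _ _ _) (cell_convex q') (by rw [hrect]; exact rect_compact _ _ _ _)
    (cell_compact q') hn1 hn2 (region_closed _) subset_union_right (by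
      intro z hz hz1
      rw [hW, mem_region] at hz
      obtain ⟨r, hrC, hzr⟩ := hz
      rw [Finset.mem_erase, List.mem_toFinset] at hrC
      have hzq' : z ∈ cell q' := by
        rcases hz1 with h1 | h1
        · rcases hr r hrC.2 hrC.1 with h2 | ⟨h2, h3⟩
          · exact absurd (cell_far h2 hzr h1) id
          · exact cell_diag h2 h3 hadj hzr h1
        · exact h1
      refine ⟨hzq', fun hint => ?_⟩
      have h5 := cell_closure r hzr
      rw [_root_.mem_closure_iff] at h5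
      obtain ⟨y, hy1, hy2⟩ := h5 _ isOpen_interior hint
      have hy3 := interior_subset hy1
      rcases hy3 with h6 | h6
      · have := ocell_cell hy2 h6
        exact hq (this ▸ hrC.2)
      · exact hrC.1 (ocell_cell hy2 h6))
  obtain ⟨φ⟩ := hp
  obtain ⟨ψ⟩ := hC
  rw [IsDisk, e1]
  rw [e2] at ψ
  exact ⟨φ.trans ψ⟩

/-- a recursive check that a list of cells (the last one first) can be built by adding cells -/
def buildable : List ((ℤ × ℤ) × (ℤ × ℤ)) → Prop
  | [] => False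
  | [_] => True
  | p :: r :: l => addable ((r :: l).map Prod.fst) p.1 p.2 ∧ buildable (r :: l)

instance : DecidablePred buildable := fun l => by
  induction l with
  | nil => exact isFalse (fun h => h)
  | cons p l ih =>
    cases l with
    | nil => exact isTrue trivial
    | cons r l => 
      unfold buildable
      exact instDecidableAnd

theorem isDisk_of_buildable : ∀ l : List ((ℤ × ℤ) × (ℤ × ℤ)), buildable l →
    IsDisk (region (l.map Prod.fst).toFinset)
  | [], h => absurd h id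
  | [p], _ => by
    have : region ([p].map Prod.fst).toFinset = cell p.1 := by
      ext z; simp [mem_region]
    rw [this]; exact isDisk_cell _
  | p :: r :: l, h => isDisk_add h.1 (isDisk_of_buildable (r :: l) h.2)

end Pool.Agent.H140.OM
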