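import Pool.Agent.H140.OM.Cells

namespace Pool.Agent.H140.OM
open Set Metric Filter Topology

/-- the points with integer coordinates -/
def lat : Set ℂ := range fun c : ℤ × ℤ => (⟨c.1, c.2⟩ : ℂ)

lemma lat_countable : lat.Countable := countable_range _

lemma closedBall_diff_preconnected {K : Set ℂ} (hK : K.Countable) :
    IsPreconnected (closedBall (0 : ℂ) 1 \ K) := by
  have hrank : 1 < Module.rank ℝ ℂ := by
    rw [Complex.rank_real_complex]; norm_num
  let u : ℂ → ℂ := fun z => ((Homeomorph.unitBall (E := ℂ)) z : ℂ)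
  have hu : Continuous u := continuous_subtype_val.comp (Homeomorph.continuous _)
  have hinj : Function.Injective u := Subtype.val_injective.comp (Homeomorph.injective _)
  have hK' : (u ⁻¹' K).Countable := hK.preimage_of_injOn hinj.injOn
  have h1 : IsPreconnected (u ⁻¹' K)ᶜ :=
    (hK'.isConnected_compl_of_one_lt_rank hrank).isPreconnected
  have h2 := h1.image u hu.continuousOn
  have h3 : u '' (u ⁻¹' K)ᶜ = ball (0 : ℂ) 1 ∩ Kᶜ := by
    ext z
    constructor
    · rintro ⟨y, hy, rfl⟩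
      exact ⟨((Homeomorph.unitBall (E := ℂ)) y).2, hy⟩
    · rintro ⟨hz1, hz2⟩
      refine ⟨(Homeomorph.unitBall (E := ℂ)).symm ⟨z, hz1⟩, ?_, ?_⟩
      · show u _ ∉ K
        have : u ((Homeomorph.unitBall (E := ℂ)).symm ⟨z, hz1⟩) = z := by
          simp only [u]
          rw [Homeomorph.apply_symm_apply]
        rw [this]; exact hz2
      · simp only [u]
        rw [Homeomorph.apply_symm_apply]
  rw [h3] at h2
  refine h2.subset_closure ?_ ?_
  · rintro z ⟨hz1, hz2⟩
    exact ⟨ball_subset_closedBall hz1, hz2⟩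
  · rintro z ⟨hz1, hz2⟩
    have h4 : Dense Kᶜ := hK.dense_compl ℝ
    have h5 := h4.open_subset_closure_inter (isOpen_ball (x := (0 : ℂ)) (ε := 1))
    have h6 := closure_mono h5
    rw [closure_closure, closure_ball _ one_ne_zero] at h6
    exact h6 hz1

lemma disk_diff_preconnected {R : Set ℂ} (hR : IsDisk R) {F : Set ℂ} (hF : F.Countable) :
    IsPreconnected (R \ F) := by
  obtain ⟨φ⟩ := hR
  let K : Set ℂ := (fun x : R => ((φ x : closedBall (0 : ℂ) 1) : ℂ)) '' {x : R | x.1 ∈ F}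
  have hK : K.Countable := by
    refine Countable.image ?_ _
    exact hF.preimage_of_injOn Subtype.val_injective.injOn
  have h1 := closedBall_diff_preconnected hK
  -- pull back to the subtype
  have h2 : IsPreconnected {y : closedBall (0 : ℂ) 1 | (y : ℂ) ∉ K} := by
    rw [← IsInducing.subtypeVal.isPreconnected_image]
    convert h1 using 1
    ext z
    constructor
    · rintro ⟨y, hy, rfl⟩; exact ⟨y.2, hy⟩
    · rintro ⟨hz1, hz2⟩; exact ⟨⟨z, hz1⟩, hz2, rfl⟩
  have h3 := h2.image φ.symm φ.symm.continuous.continuousOn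
  have h4 := h3.image Subtype.val continuous_subtype_val.continuousOn
  convert h4 using 1
  ext z
  constructor
  · rintro ⟨hz1, hz2⟩
    refine ⟨⟨z, hz1⟩, ⟨φ ⟨z, hz1⟩, ?_, by simp⟩, rfl⟩
    rintro ⟨x, hx, hxz⟩
    have : φ x = φ ⟨z, hz1⟩ := Subtype.ext hxz
    have := φ.injective this
    subst this
    exact hz2 hx
  · rintro ⟨x, ⟨y, hy, rfl⟩, rfl⟩
    refine ⟨(φ.symm y).2, fun hF' => hy ?_⟩
    exact ⟨φ.symm y, hF', by simp⟩

lemma common_lattice {a b : ℤ × ℤ} (hne : a ≠ b) (hadj : ¬ adj a b) {z : ℂ} (h1 : z ∈ cell a)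
    (h2 : z ∈ cell b) : z ∈ lat := by
  by_cases hf : far a b
  · exact absurd (cell_far hf h1 h2) id
  · have hd : diag a b := by
      unfold far at hf
      unfold adj at hadj
      unfold diag
      have : ¬ (a.1 = b.1 ∧ a.2 = b.2) := fun h => hne (Prod.ext h.1 h.2)
      omega
    obtain ⟨⟨a1, a2⟩, a3, a4⟩ := h1
    obtain ⟨⟨b1, b2⟩, b3, b4⟩ := h2
    unfold diag at hd
    have hx : a.1 = b.1 + 1 ∨ b.1 = a.1 + 1 := by omega
    have hy : a.2 = b.2 + 1 ∨ b.2 = a.2 + 1 := by omega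
    refine ⟨(max a.1 b.1, max a.2 b.2), ?_⟩
    apply Complex.ext
    · simp only
      rcases hx with e | e
      · rw [max_eq_left (by omega)]
        rw [e] at a1 ⊢; push_cast at *; linarith
      · rw [max_eq_right (by omega)]
        rw [e] at b1 ⊢; push_cast at *; linarith
    · simp only
      rcases hy with e | e
      · rw [max_eq_left (by omega)]
        rw [e] at a3 ⊢; push_cast at *; linarith
      · rw [max_eq_right (by omega)]
        rw [e] at b3 ⊢; push_cast at *; linarith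

lemma ctr_not_lat (c : ℤ × ℤ) : ctr c ∉ lat := by
  rintro ⟨d, hd⟩
  have := congrArg Complex.re hd
  simp [ctr] at this
  have h2 : (2 * d.1 : ℝ) = 2 * c.1 + 1 := by linarith
  have h3 : 2 * d.1 = 2 * c.1 + 1 := by exact_mod_cast h2
  omega

/-- the cells of a polyomino which is a topological disk are connected by edges -/
theorem disk_connected {D A : Finset (ℤ × ℤ)} (hD : IsDisk (region D)) (hAD : A ⊆ D)
    (hA : A.Nonempty) (hadj : ∀ a ∈ A, ∀ b ∈ D, b ∉ A → ¬ adj a b) : D ⊆ A := by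
  classical
  by_contra hsub
  obtain ⟨b, hb, hbA⟩ := Finset.not_subset.1 hsub
  obtain ⟨a, ha⟩ := hA
  have h1 := disk_diff_preconnected hD lat_countable
  rw [isPreconnected_closed_iff] at h1
  obtain ⟨z, ⟨hz1, hz2⟩, hz3, hz4⟩ := h1 (region A) (region (D \ A)) (region_closed _) (region_closed _)
    (by
      rintro z ⟨hz1, hz2⟩
      rw [mem_region] at hz1
      obtain ⟨c, hc, hz⟩ := hz1
      by_cases hcA : c ∈ A
      · left; rw [mem_region]; exact ⟨c, hcA, hz⟩
      · right; rw [mem_region]; exact ⟨c, Finset.mem_sdiff.2 ⟨hc, hcA⟩, hz⟩)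
    ⟨ctr a, ⟨mem_region.2 ⟨a, hAD ha, ocell_sub a (ctr_mem a)⟩, ctr_not_lat a⟩,
      mem_region.2 ⟨a, ha, ocell_sub a (ctr_mem a)⟩⟩
    ⟨ctr b, ⟨mem_region.2 ⟨b, hb, ocell_sub b (ctr_mem b)⟩, ctr_not_lat b⟩,
      mem_region.2 ⟨b, Finset.mem_sdiff.2 ⟨hb, hbA⟩, ocell_sub b (ctr_mem b)⟩⟩
  rw [mem_region] at hz3 hz4
  obtain ⟨c, hc, hzc⟩ := hz3
  obtain ⟨d, hd, hzd⟩ := hz4
  rw [Finset.mem_sdiff] at hd
  exact hz2 (common_lattice (fun h : c = d => hd.2 (h ▸ hc)) (hadj c hc d hd.1 hd.2) hzc hzd)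

end Pool.Agent.H140.OM
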