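import Pool.Agent.H140.OM.Iso

namespace Pool.Agent.H140.OM
open Set Metric Filter Topology

/-- Normalised corner lemma: `0 = v + s₀ a + t₀ (i a)` is a point of the unit square `Sq v a`, which
contains a point `ε (1 + i)`, and near `0` the open square avoids the second and fourth quadrant. -/
theorem corner_norm {v a : ℂ} (ha : ‖a‖ = 1) {s₀ t₀ s₁ t₁ ε : ℝ} (hε : 0 < ε)
    (hs0 : 0 ≤ s₀) (hs0' : s₀ ≤ 1) (ht0 : 0 ≤ t₀) (ht0' : t₀ ≤ 1)
    (h0 : v + s₀ * a + t₀ * (Complex.I * a) = 0)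
    (hs1 : 0 ≤ s₁) (hs1' : s₁ ≤ 1) (ht1 : 0 ≤ t₁) (ht1' : t₁ ≤ 1)
    (h1 : v + s₁ * a + t₁ * (Complex.I * a) = ε * (1 + Complex.I))
    (hav : ∀ s t : ℝ, 0 < s → s < 1 → 0 < t → t < 1 →
      ¬ ((-1 < (v + s * a + t * (Complex.I * a)).re ∧ (v + s * a + t * (Complex.I * a)).re < 0 ∧
          0 < (v + s * a + t * (Complex.I * a)).im ∧ (v + s * a + t * (Complex.I * a)).im < 1) ∨
         (0 < (v + s * a + t * (Complex.I * a)).re ∧ (v + s * a + t * (Complex.I * a)).re < 1 ∧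
          -1 < (v + s * a + t * (Complex.I * a)).im ∧ (v + s * a + t * (Complex.I * a)).im < 0))) :
    (v = 0 ∧ a = 1) ∨ (v = 1 ∧ a = Complex.I) ∨ (v = 1 + Complex.I ∧ a = -1) ∨
    (v = Complex.I ∧ a = -Complex.I) := by
  obtain ⟨a1, a2⟩ := a
  obtain ⟨v1, v2⟩ := v
  have hn : a1 ^ 2 + a2 ^ 2 = 1 := by
    have : Complex.normSq ⟨a1, a2⟩ = 1 := by rw [← Complex.sq_norm, ha]; norm_num
    rw [Complex.normSq_mk] at this
    calc a1 ^ 2 + a2 ^ 2 = a1 * a1 + a2 * a2 := by ring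
      _ = 1 := this
  have e1 := congrArg Complex.re h0
  have e2 := congrArg Complex.im h0
  have e3 := congrArg Complex.re h1
  have e4 := congrArg Complex.im h1
  simp at e1 e2 e3 e4
  have b1 : |a1| ≤ 1 := (sq_le_one_iff_abs_le_one a1).1 (by linarith [sq_nonneg a2])
  have b2 : |a2| ≤ 1 := (sq_le_one_iff_abs_le_one a2).1 (by linarith [sq_nonneg a1])
  obtain ⟨b3, b4⟩ := abs_le.1 b1
  obtain ⟨b5, b6⟩ := abs_le.1 b2
  -- the direction of `ε (1 + i)`
  have d1 : s₁ - s₀ = ε * (a1 + a2) := by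
    have : (s₁ - s₀) * (a1 ^ 2 + a2 ^ 2) = ε * (a1 + a2) := by
      linear_combination a1 * (e3 - e1) + a2 * (e4 - e2)
    rw [hn] at this; linarith
  have d2 : t₁ - t₀ = ε * (a1 - a2) := by
    have : (t₁ - t₀) * (a1 ^ 2 + a2 ^ 2) = ε * (a1 - a2) := by
      linear_combination a1 * (e4 - e2) - a2 * (e3 - e1)
    rw [hn] at this; linarith
  -- the product of the coordinates
  have key : ∀ x y : ℝ, -s₀ < x → x < 1 - s₀ → -t₀ < y → y < 1 - t₀ → |x| ≤ 1 / 4 → |y| ≤ 1 / 4 →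
      0 ≤ (x ^ 2 - y ^ 2) * (a1 * a2) + x * y * (a1 ^ 2 - a2 ^ 2) := by
    intro x y hx1 hx2 hy1 hy2 hx hy
    by_contra hneg
    push Not at hneg
    have hre : (⟨v1, v2⟩ + ((s₀ + x : ℝ) : ℂ) * ⟨a1, a2⟩ + ((t₀ + y : ℝ) : ℂ) * (Complex.I * ⟨a1, a2⟩) : ℂ).re
        = x * a1 - y * a2 := by simp; linarith
    have him : (⟨v1, v2⟩ + ((s₀ + x : ℝ) : ℂ) * ⟨a1, a2⟩ + ((t₀ + y : ℝ) : ℂ) * (Complex.I * ⟨a1, a2⟩) : ℂ).im
        = x * a2 + y * a1 := by simp; linarith
    obtain ⟨hx3, hx4⟩ := abs_le.1 hx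
    obtain ⟨hy3, hy4⟩ := abs_le.1 hy
    have hprod : (x * a1 - y * a2) * (x * a2 + y * a1) < 0 := by
      calc (x * a1 - y * a2) * (x * a2 + y * a1) =
          (x ^ 2 - y ^ 2) * (a1 * a2) + x * y * (a1 ^ 2 - a2 ^ 2) := by ring
        _ < 0 := hneg
    have mm : ∀ x a : ℝ, |x| ≤ 1 / 4 → |a| ≤ 1 → |x * a| ≤ 1 / 4 := by
      intro x a hx ha
      rw [abs_mul]
      calc |x| * |a| ≤ (1 / 4) * 1 := mul_le_mul hx ha (abs_nonneg _) (by norm_num)
        _ = 1 / 4 := by norm_num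
    have m1 : |x * a1| ≤ 1 / 4 := mm _ _ hx b1
    have m2 : |y * a2| ≤ 1 / 4 := mm _ _ hy b2
    have m3 : |x * a2| ≤ 1 / 4 := mm _ _ hx b2
    have m4 : |y * a1| ≤ 1 / 4 := mm _ _ hy b1
    obtain ⟨m1, m1'⟩ := abs_le.1 m1
    obtain ⟨m2, m2'⟩ := abs_le.1 m2
    obtain ⟨m3, m3'⟩ := abs_le.1 m3
    obtain ⟨m4, m4'⟩ := abs_le.1 m4
    apply hav (s₀ + x) (t₀ + y) (by linarith) (by linarith) (by linarith) (by linarith)
    rw [hre, him]
    rcases mul_neg_iff.1 hprod with ⟨p1, p2⟩ | ⟨p1, p2⟩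
    · right; refine ⟨?_, ?_, ?_, ?_⟩ <;> linarith
    · left; refine ⟨?_, ?_, ?_, ?_⟩ <;> linarith
  -- `s₀` and `t₀` are 0 or 1
  have hsc : ∀ c2 p2 : ℝ, c2 = a1 ^ 2 - a2 ^ 2 → p2 = a1 * a2 → c2 = 0 → p2 = 0 → False := by
    intro c2 p2 h1 h2 h3 h4
    have : c2 ^ 2 + 4 * p2 ^ 2 = 1 := by
      rw [h1, h2]
      calc (a1 ^ 2 - a2 ^ 2) ^ 2 + 4 * (a1 * a2) ^ 2 = (a1 ^ 2 + a2 ^ 2) ^ 2 := by ring
        _ = 1 := by rw [hn]; norm_num
    rw [h3, h4] at this; norm_num at this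
  have hs : s₀ = 0 ∨ s₀ = 1 := by
    by_contra hcon
    push Not at hcon
    have q1 : 0 < s₀ := lt_of_le_of_ne hs0 (Ne.symm hcon.1)
    have q2 : s₀ < 1 := lt_of_le_of_ne hs0' hcon.2
    obtain ⟨r, hr, hr1, hr2, hr3⟩ : ∃ r : ℝ, 0 < r ∧ r < s₀ ∧ r < 1 - s₀ ∧ r ≤ 1 / 4 :=
      ⟨min (min (s₀ / 2) ((1 - s₀) / 2)) (1 / 4), by
        refine lt_min (lt_min (by linarith) (by linarith)) (by norm_num), by
        refine lt_of_le_of_lt ((min_le_left _ _).trans (min_le_left _ _)) (by linarith), by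
        refine lt_of_le_of_lt ((min_le_left _ _).trans (min_le_right _ _)) (by linarith),
        min_le_right _ _⟩
    rcases lt_or_eq_of_le ht0' with q3 | q3
    · -- y > 0
      obtain ⟨ρ, hρ, hρ1, hρ2⟩ : ∃ ρ : ℝ, 0 < ρ ∧ ρ < 1 - t₀ ∧ ρ ≤ r :=
        ⟨min ((1 - t₀) / 2) r, lt_min (by linarith) hr,
          lt_of_le_of_lt (min_le_left _ _) (by linarith), min_le_right _ _⟩
      have k1 := key ρ ρ (by linarith) (by linarith) (by linarith) (by linarith)
        (by rw [abs_of_pos hρ]; linarith) (by rw [abs_of_pos hρ]; linarith)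
      have k2 := key (-ρ) ρ (by linarith) (by linarith) (by linarith) (by linarith)
        (by rw [abs_neg, abs_of_pos hρ]; linarith) (by rw [abs_of_pos hρ]; linarith)
      have k3 := key 0 ρ (by linarith) (by linarith) (by linarith) (by linarith)
        (by simp) (by rw [abs_of_pos hρ]; linarith)
      have k4 := key ρ (ρ / 2) (by linarith) (by linarith) (by linarith) (by linarith)
        (by rw [abs_of_pos hρ]; linarith) (by rw [abs_of_pos (by positivity)]; linarith)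
      have hρ' : 0 < ρ ^ 2 := by positivity
      have c0 : a1 ^ 2 - a2 ^ 2 = 0 := by
        have l1 : 0 ≤ ρ ^ 2 * (a1 ^ 2 - a2 ^ 2) := by linarith
        have l2 : ρ ^ 2 * (a1 ^ 2 - a2 ^ 2) ≤ 0 := by linarith
        have l3 : ρ ^ 2 * (a1 ^ 2 - a2 ^ 2) = 0 := le_antisymm l2 l1
        exact (mul_eq_zero.1 l3).resolve_left hρ'.ne'
      have p0 : a1 * a2 = 0 := by
        have l1 : ρ ^ 2 * (a1 * a2) ≤ 0 := by linarith
        rw [c0] at k4
        have l2 : 0 ≤ ρ ^ 2 * (a1 * a2) := by linarith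
        have l3 : ρ ^ 2 * (a1 * a2) = 0 := le_antisymm l1 l2
        exact (mul_eq_zero.1 l3).resolve_left hρ'.ne'
      exact hsc _ _ rfl rfl c0 p0
    · -- y < 0
      obtain ⟨ρ, hρ, hρ1, hρ2⟩ : ∃ ρ : ℝ, 0 < ρ ∧ ρ < t₀ ∧ ρ ≤ r :=
        ⟨min (t₀ / 2) r, lt_min (by linarith) hr,
          lt_of_le_of_lt (min_le_left _ _) (by linarith), min_le_right _ _⟩
      have k1 := key ρ (-ρ) (by linarith) (by linarith) (by linarith) (by linarith)
        (by rw [abs_of_pos hρ]; linarith) (by rw [abs_neg, abs_of_pos hρ]; linarith)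
      have k2 := key (-ρ) (-ρ) (by linarith) (by linarith) (by linarith) (by linarith)
        (by rw [abs_neg, abs_of_pos hρ]; linarith) (by rw [abs_neg, abs_of_pos hρ]; linarith)
      have k3 := key 0 (-ρ) (by linarith) (by linarith) (by linarith) (by linarith)
        (by simp) (by rw [abs_neg, abs_of_pos hρ]; linarith)
      have k4 := key ρ (-(ρ / 2)) (by linarith) (by linarith) (by linarith) (by linarith)
        (by rw [abs_of_pos hρ]; linarith) (by rw [abs_neg, abs_of_pos (by positivity)]; linarith)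
      have hρ' : 0 < ρ ^ 2 := by positivity
      have c0 : a1 ^ 2 - a2 ^ 2 = 0 := by
        have l1 : 0 ≤ ρ ^ 2 * (a1 ^ 2 - a2 ^ 2) := by linarith
        have l2 : ρ ^ 2 * (a1 ^ 2 - a2 ^ 2) ≤ 0 := by linarith
        have l3 : ρ ^ 2 * (a1 ^ 2 - a2 ^ 2) = 0 := le_antisymm l2 l1
        exact (mul_eq_zero.1 l3).resolve_left hρ'.ne'
      have p0 : a1 * a2 = 0 := by
        have l1 : ρ ^ 2 * (a1 * a2) ≤ 0 := by linarith
        rw [c0] at k4
        have l2 : 0 ≤ ρ ^ 2 * (a1 * a2) := by linarith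
        have l3 : ρ ^ 2 * (a1 * a2) = 0 := le_antisymm l1 l2
        exact (mul_eq_zero.1 l3).resolve_left hρ'.ne'
      exact hsc _ _ rfl rfl c0 p0
  have ht : t₀ = 0 ∨ t₀ = 1 := by
    by_contra hcon
    push Not at hcon
    have q1 : 0 < t₀ := lt_of_le_of_ne ht0 (Ne.symm hcon.1)
    have q2 : t₀ < 1 := lt_of_le_of_ne ht0' hcon.2
    obtain ⟨r, hr, hr1, hr2, hr3⟩ : ∃ r : ℝ, 0 < r ∧ r < t₀ ∧ r < 1 - t₀ ∧ r ≤ 1 / 4 :=
      ⟨min (min (t₀ / 2) ((1 - t₀) / 2)) (1 / 4), by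
        refine lt_min (lt_min (by linarith) (by linarith)) (by norm_num), by
        refine lt_of_le_of_lt ((min_le_left _ _).trans (min_le_left _ _)) (by linarith), by
        refine lt_of_le_of_lt ((min_le_left _ _).trans (min_le_right _ _)) (by linarith),
        min_le_right _ _⟩
    rcases hs with q3 | q3
    · -- x > 0
      have k1 := key r r (by linarith) (by linarith) (by linarith) (by linarith)
        (by rw [abs_of_pos hr]; linarith) (by rw [abs_of_pos hr]; linarith)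
      have k2 := key r (-r) (by linarith) (by linarith) (by linarith) (by linarith)
        (by rw [abs_of_pos hr]; linarith) (by rw [abs_neg, abs_of_pos hr]; linarith)
      have k3 := key r 0 (by linarith) (by linarith) (by linarith) (by linarith)
        (by rw [abs_of_pos hr]; linarith) (by simp)
      have k4 := key (r / 2) r (by linarith) (by linarith) (by linarith) (by linarith)
        (by rw [abs_of_pos (by positivity)]; linarith) (by rw [abs_of_pos hr]; linarith)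
      have hr' : 0 < r ^ 2 := by positivity
      have c0 : a1 ^ 2 - a2 ^ 2 = 0 := by
        have l1 : 0 ≤ r ^ 2 * (a1 ^ 2 - a2 ^ 2) := by linarith
        have l2 : r ^ 2 * (a1 ^ 2 - a2 ^ 2) ≤ 0 := by linarith
        have l3 : r ^ 2 * (a1 ^ 2 - a2 ^ 2) = 0 := le_antisymm l2 l1
        exact (mul_eq_zero.1 l3).resolve_left hr'.ne'
      have p0 : a1 * a2 = 0 := by
        have l1 : 0 ≤ r ^ 2 * (a1 * a2) := by linarith
        rw [c0] at k4
        have l2 : r ^ 2 * (a1 * a2) ≤ 0 := by linarith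
        have l3 : r ^ 2 * (a1 * a2) = 0 := le_antisymm l2 l1
        exact (mul_eq_zero.1 l3).resolve_left hr'.ne'
      exact hsc _ _ rfl rfl c0 p0
    · have k1 := key (-r) r (by linarith) (by linarith) (by linarith) (by linarith)
        (by rw [abs_neg, abs_of_pos hr]; linarith) (by rw [abs_of_pos hr]; linarith)
      have k2 := key (-r) (-r) (by linarith) (by linarith) (by linarith) (by linarith)
        (by rw [abs_neg, abs_of_pos hr]; linarith) (by rw [abs_neg, abs_of_pos hr]; linarith)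
      have k3 := key (-r) 0 (by linarith) (by linarith) (by linarith) (by linarith)
        (by rw [abs_neg, abs_of_pos hr]; linarith) (by simp)
      have k4 := key (-(r / 2)) r (by linarith) (by linarith) (by linarith) (by linarith)
        (by rw [abs_neg, abs_of_pos (by positivity)]; linarith) (by rw [abs_of_pos hr]; linarith)
      have hr' : 0 < r ^ 2 := by positivity
      have c0 : a1 ^ 2 - a2 ^ 2 = 0 := by
        have l1 : 0 ≤ r ^ 2 * (a1 ^ 2 - a2 ^ 2) := by linarith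
        have l2 : r ^ 2 * (a1 ^ 2 - a2 ^ 2) ≤ 0 := by linarith
        have l3 : r ^ 2 * (a1 ^ 2 - a2 ^ 2) = 0 := le_antisymm l2 l1
        exact (mul_eq_zero.1 l3).resolve_left hr'.ne'
      have p0 : a1 * a2 = 0 := by
        have l1 : 0 ≤ r ^ 2 * (a1 * a2) := by linarith
        rw [c0] at k4
        have l2 : r ^ 2 * (a1 * a2) ≤ 0 := by linarith
        have l3 : r ^ 2 * (a1 * a2) = 0 := le_antisymm l2 l1
        exact (mul_eq_zero.1 l3).resolve_left hr'.ne'
      exact hsc _ _ rfl rfl c0 p0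
  -- the four vertex cases
  have fin : ∀ σ τ : ℝ, (σ = 1 ∨ σ = -1) → (τ = 1 ∨ τ = -1) →
      (∀ ξ η : ℝ, 0 < ξ → ξ ≤ 1 / 4 → 0 < η → η ≤ 1 / 4 →
        0 ≤ ((σ * ξ) ^ 2 - (τ * η) ^ 2) * (a1 * a2) + (σ * ξ) * (τ * η) * (a1 ^ 2 - a2 ^ 2)) →
      a1 * a2 = 0 ∧ a1 ^ 2 - a2 ^ 2 = σ * τ := by
    intro σ τ hσ hτ h
    have hσ2 : σ ^ 2 = 1 := by rcases hσ with rfl | rfl <;> norm_num
    have hτ2 : τ ^ 2 = 1 := by rcases hτ with rfl | rfl <;> norm_num
    have hk : ∀ ξ η : ℝ, 0 < ξ → ξ ≤ 1 / 4 → 0 < η → η ≤ 1 / 4 →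
        0 ≤ (ξ ^ 2 - η ^ 2) * (a1 * a2) + ξ * η * (σ * τ * (a1 ^ 2 - a2 ^ 2)) := by
      intro ξ η h1 h2 h3 h4
      have := h ξ η h1 h2 h3 h4
      have e : ((σ * ξ) ^ 2 - (τ * η) ^ 2) * (a1 * a2) + (σ * ξ) * (τ * η) * (a1 ^ 2 - a2 ^ 2) =
        (σ ^ 2 * ξ ^ 2 - τ ^ 2 * η ^ 2) * (a1 * a2) + ξ * η * (σ * τ * (a1 ^ 2 - a2 ^ 2)) := by ring
      rw [e, hσ2, hτ2] at this
      linarith
    set q := σ * τ * (a1 ^ 2 - a2 ^ 2) with hq
    set p := a1 * a2 with hp
    have hq1 : q ^ 2 + 4 * p ^ 2 = 1 := by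
      have : q ^ 2 = (σ ^ 2 * τ ^ 2) * (a1 ^ 2 - a2 ^ 2) ^ 2 := by rw [hq]; ring
      rw [this, hσ2, hτ2, hp]
      have h5 : (a1 ^ 2 - a2 ^ 2) ^ 2 + 4 * (a1 * a2) ^ 2 = (a1 ^ 2 + a2 ^ 2) ^ 2 := by ring
      rw [hn] at h5
      linarith
    have hq2 : q ≤ 1 := (abs_le.1 ((sq_le_one_iff_abs_le_one q).1 (by linarith [sq_nonneg p]))).2
    have hq3 : 0 ≤ q := by
      have := hk (1 / 4) (1 / 4) (by norm_num) le_rfl (by norm_num) le_rfl
      linarith
    have hp0 : p = 0 := by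
      rcases lt_trichotomy p 0 with hp' | hp' | hp'
      · exfalso
        have hp1 : |p| ≤ 1 := (sq_le_one_iff_abs_le_one p).1 (by linarith [sq_nonneg q, sq_nonneg p])
        have hp2 : -1 ≤ p := (abs_le.1 hp1).1
        have h6 := hk (1 / 4) (-p / 8) (by norm_num) le_rfl (by linarith) (by linarith)
        have h7 : p ^ 2 ≤ 1 := by linarith [sq_nonneg q, sq_nonneg p]
        have h8 : 0 ≤ (1 - p ^ 2) * (-p) := mul_nonneg (by linarith) (by linarith)
        have h9 : 0 ≤ (1 - q) * (-p) := mul_nonneg (by linarith) (by linarith)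
        linarith
      · exact hp'
      · exfalso
        have hp1 : |p| ≤ 1 := (sq_le_one_iff_abs_le_one p).1 (by linarith [sq_nonneg q, sq_nonneg p])
        have hp2 : p ≤ 1 := (abs_le.1 hp1).2
        have h6 := hk (p / 8) (1 / 4) (by linarith) (by linarith) (by norm_num) le_rfl
        have h7 : p ^ 2 ≤ 1 := by linarith [sq_nonneg q, sq_nonneg p]
        have h8 : 0 ≤ (1 - p ^ 2) * p := mul_nonneg (by linarith) (by linarith)
        have h9 : 0 ≤ (1 - q) * p := mul_nonneg (by linarith) (by linarith)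
        linarith
    refine ⟨hp0, ?_⟩
    rw [hp0] at hq1
    have hq4 : q = 1 := by
      have h5 : (q - 1) * (q + 1) = 0 := by linarith
      rcases mul_eq_zero.1 h5 with h6 | h6
      · linarith
      · linarith
    have : σ * τ * q = σ ^ 2 * τ ^ 2 * (a1 ^ 2 - a2 ^ 2) := by rw [hq]; ring
    rw [hσ2, hτ2, hq4] at this
    linarith
  rcases hs with rfl | rfl <;> rcases ht with rfl | rfl
  · -- vertex v
    left
    obtain ⟨f1, f2⟩ := fin 1 1 (Or.inl rfl) (Or.inl rfl) (fun ξ η h1 h2 h3 h4 =>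
      key (1 * ξ) (1 * η) (by linarith) (by linarith) (by linarith) (by linarith)
        (by rw [one_mul, abs_of_pos h1]; exact h2) (by rw [one_mul, abs_of_pos h3]; exact h4))
    have ha2 : a2 = 0 := by
      rcases mul_eq_zero.1 f1 with h | h
      · rw [h] at f2; linarith [sq_nonneg a2]
      · exact h
    subst ha2
    have ha1 : a1 = 1 := by
      have h5 : 0 ≤ ε * (a1 + 0) := by rw [← d1]; linarith
      have h6 : 0 ≤ a1 := by
        by_contra h; push Not at h
        have : ε * (a1 + 0) < 0 := mul_neg_of_pos_of_neg hε (by linarith)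
        linarith
      have h7 : (a1 - 1) * (a1 + 1) = 0 := by linarith
      rcases mul_eq_zero.1 h7 with h8 | h8 <;> linarith
    subst ha1
    refine ⟨?_, rfl⟩
    apply Complex.ext <;> simp <;> linarith
  · -- vertex v + i a
    right; left
    obtain ⟨f1, f2⟩ := fin 1 (-1) (Or.inl rfl) (Or.inr rfl) (fun ξ η h1 h2 h3 h4 =>
      key (1 * ξ) (-1 * η) (by linarith) (by linarith) (by linarith) (by linarith)
        (by rw [one_mul, abs_of_pos h1]; exact h2) (by rw [neg_one_mul, abs_neg, abs_of_pos h3]; exact h4))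
    have ha1 : a1 = 0 := by
      rcases mul_eq_zero.1 f1 with h | h
      · exact h
      · rw [h] at f2; linarith [sq_nonneg a1]
    subst ha1
    have ha2 : a2 = 1 := by
      have h5 : 0 ≤ ε * (0 + a2) := by rw [← d1]; linarith
      have h6 : 0 ≤ a2 := by
        by_contra h; push Not at h
        have : ε * (0 + a2) < 0 := mul_neg_of_pos_of_neg hε (by linarith)
        linarith
      have h7 : (a2 - 1) * (a2 + 1) = 0 := by linarith
      rcases mul_eq_zero.1 h7 with h8 | h8 <;> linarith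
    subst ha2
    refine ⟨?_, rfl⟩
    apply Complex.ext <;> simp <;> linarith
  · -- vertex v + a
    right; right; right
    obtain ⟨f1, f2⟩ := fin (-1) 1 (Or.inr rfl) (Or.inl rfl) (fun ξ η h1 h2 h3 h4 =>
      key (-1 * ξ) (1 * η) (by linarith) (by linarith) (by linarith) (by linarith)
        (by rw [neg_one_mul, abs_neg, abs_of_pos h1]; exact h2) (by rw [one_mul, abs_of_pos h3]; exact h4))
    have ha1 : a1 = 0 := by
      rcases mul_eq_zero.1 f1 with h | h
      · exact h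
      · rw [h] at f2; linarith [sq_nonneg a1]
    subst ha1
    have ha2 : a2 = -1 := by
      have h5 : ε * (0 + a2) ≤ 0 := by rw [← d1]; linarith
      have h6 : a2 ≤ 0 := by
        by_contra h; push Not at h
        have : 0 < ε * (0 + a2) := mul_pos hε (by linarith)
        linarith
      have h7 : (a2 - 1) * (a2 + 1) = 0 := by linarith
      rcases mul_eq_zero.1 h7 with h8 | h8 <;> linarith
    subst ha2
    refine ⟨?_, ?_⟩
    · apply Complex.ext <;> simp <;> linarith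
    · apply Complex.ext <;> simp
  · right; right; left
    obtain ⟨f1, f2⟩ := fin (-1) (-1) (Or.inr rfl) (Or.inr rfl) (fun ξ η h1 h2 h3 h4 =>
      key (-1 * ξ) (-1 * η) (by linarith) (by linarith) (by linarith) (by linarith)
        (by rw [neg_one_mul, abs_neg, abs_of_pos h1]; exact h2)
        (by rw [neg_one_mul, abs_neg, abs_of_pos h3]; exact h4))
    have ha2 : a2 = 0 := by
      rcases mul_eq_zero.1 f1 with h | h
      · rw [h] at f2; linarith [sq_nonneg a2]
      · exact h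
    subst ha2
    have ha1 : a1 = -1 := by
      have h5 : ε * (a1 + 0) ≤ 0 := by rw [← d1]; linarith
      have h6 : a1 ≤ 0 := by
        by_contra h; push Not at h
        have : 0 < ε * (a1 + 0) := mul_pos hε (by linarith)
        linarith
      have h7 : (a1 - 1) * (a1 + 1) = 0 := by linarith
      rcases mul_eq_zero.1 h7 with h8 | h8 <;> linarith
    subst ha1
    refine ⟨?_, ?_⟩
    · apply Complex.ext <;> simp <;> linarith
    · apply Complex.ext <;> simp

end Pool.Agent.H140.OM
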