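import Pool.Agent.H140.OM.Conn

namespace Pool.Agent.H140.OM
open Set Metric Filter Topology

/-- congruence of plane sets (reflections allowed) -/
def Congruent (R T : Set ℂ) : Prop := ∃ g : ℂ ≃ᵢ ℂ, T = g '' R

/-- closed unit square with a vertex `v` and the sides `a` and `i a` at `v` -/
def Sq (v a : ℂ) : Set ℂ :=
  {z | ∃ s t : ℝ, (0 ≤ s ∧ s ≤ 1) ∧ (0 ≤ t ∧ t ≤ 1) ∧ z = v + s * a + t * (Complex.I * a)}

/-- lattice point as a complex number -/
def pt (c : ℤ × ℤ) : ℂ := ⟨c.1, c.2⟩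

lemma cell_Sq (c : ℤ × ℤ) : cell c = Sq (pt c) 1 := by
  ext z
  constructor
  · rintro ⟨⟨h1, h2⟩, h3, h4⟩
    refine ⟨z.re - c.1, z.im - c.2, ⟨by linarith, by linarith⟩, ⟨by linarith, by linarith⟩, ?_⟩
    apply Complex.ext <;> simp [pt]
  · rintro ⟨s, t, ⟨h1, h2⟩, ⟨h3, h4⟩, rfl⟩
    rw [mem_cell]
    simp [pt]
    refine ⟨⟨?_, ?_⟩, ?_, ?_⟩ <;> linarith

lemma image_cell (c : ℤ × ℤ) (α β : ℂ) :
    (fun z => α * z + β) '' cell c = Sq (α * pt c + β) α := by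
  rw [cell_Sq]
  ext z
  constructor
  · rintro ⟨y, ⟨s, t, hs, ht, rfl⟩, rfl⟩
    exact ⟨s, t, hs, ht, by ring⟩
  · rintro ⟨s, t, hs, ht, rfl⟩
    exact ⟨_, ⟨s, t, hs, ht, rfl⟩, by ring⟩

lemma image_region (C : Finset (ℤ × ℤ)) (f : ℂ → ℂ) : f '' region C = ⋃ c ∈ C, f '' cell c := by
  unfold region
  rw [image_iUnion₂]

lemma IsDisk.image {R : Set ℂ} (hR : IsDisk R) (g : ℂ ≃ₜ ℂ) : IsDisk (g '' R) := by
  obtain ⟨φ⟩ := hR
  exact ⟨(g.image R).symm.trans φ⟩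

/-- the image of a polyomino under a map permuting the cells -/
lemma region_image {C : Finset (ℤ × ℤ)} {f : ℂ → ℂ} {σ : ℤ × ℤ → ℤ × ℤ} (hσ : Function.Injective σ)
    (h : ∀ c, f '' cell c = cell (σ c)) :
    f '' region C = region (C.map ⟨σ, hσ⟩) := by
  rw [image_region]
  ext z
  simp only [mem_iUnion, mem_region, Finset.mem_map, Function.Embedding.coeFn_mk]
  constructor
  · rintro ⟨c, hc, hz⟩
    exact ⟨σ c, ⟨c, hc, rfl⟩, by rwa [← h]⟩
  · rintro ⟨_, ⟨c, hc, rfl⟩, hz⟩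
    exact ⟨c, hc, by rwa [h]⟩

lemma conj_cell (c : ℤ × ℤ) : (starRingEnd ℂ) '' cell c = cell (c.1, -c.2 - 1) := by
  ext z
  constructor
  · rintro ⟨y, ⟨⟨h1, h2⟩, h3, h4⟩, rfl⟩
    rw [mem_cell]; simp
    refine ⟨⟨?_, ?_⟩, ?_, ?_⟩ <;> linarith
  · rintro ⟨⟨h1, h2⟩, h3, h4⟩
    refine ⟨starRingEnd ℂ z, ?_, by simp⟩
    rw [mem_cell]; simp at *
    refine ⟨⟨?_, ?_⟩, ?_, ?_⟩ <;> linarith

lemma mulI_cell (c : ℤ × ℤ) : (fun z => Complex.I * z) '' cell c = cell (-c.2 - 1, c.1) := by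
  ext z
  constructor
  · rintro ⟨y, ⟨⟨h1, h2⟩, h3, h4⟩, rfl⟩
    rw [mem_cell]; simp
    refine ⟨⟨?_, ?_⟩, ?_, ?_⟩ <;> linarith
  · rintro ⟨⟨h1, h2⟩, h3, h4⟩
    refine ⟨-Complex.I * z, ?_, ?_⟩
    · rw [mem_cell]; simp at *
      refine ⟨⟨?_, ?_⟩, ?_, ?_⟩ <;> linarith
    · simp only
      rw [← mul_assoc]; simp

lemma add_cell (c d : ℤ × ℤ) : (fun z => z + pt d) '' cell c = cell (c + d) := by
  ext z
  constructor
  · rintro ⟨y, ⟨⟨h1, h2⟩, h3, h4⟩, rfl⟩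
    rw [mem_cell]; simp [pt]
    refine ⟨⟨?_, ?_⟩, ?_, ?_⟩ <;> linarith
  · rintro ⟨⟨h1, h2⟩, h3, h4⟩
    refine ⟨z - pt d, ?_, by simp⟩
    rw [mem_cell]; simp [pt] at *
    refine ⟨⟨?_, ?_⟩, ?_, ?_⟩ <;> linarith

lemma conj_inj : Function.Injective (fun c : ℤ × ℤ => (c.1, -c.2 - 1)) := by
  rintro ⟨a, b⟩ ⟨c, d⟩ h
  simp at h
  ext <;> simp <;> omega

lemma mulI_inj : Function.Injective (fun c : ℤ × ℤ => (-c.2 - 1, c.1)) := by
  rintro ⟨a, b⟩ ⟨c, d⟩ h
  simp at h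
  ext <;> simp <;> omega

lemma add_inj (d : ℤ × ℤ) : Function.Injective (fun c : ℤ × ℤ => c + d) := add_left_injective d

/-- every tile is a rotated and translated polyomino -/
lemma tile_rep {n : ℕ} {R T : Set ℂ} (hR : IsOmino n R) (h : Congruent R T) :
    ∃ (C : Finset (ℤ × ℤ)) (α β : ℂ), ‖α‖ = 1 ∧ C.card = n ∧
      T = (fun z => α * z + β) '' region C ∧ IsDisk T := by
  obtain ⟨hd, C, hC, rfl⟩ := hR
  obtain ⟨g, rfl⟩ := h
  have hT : IsDisk (g '' region C) := hd.image g.toHomeomorph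
  have hg : ∀ z, g z = g.toRealLinearIsometryEquiv z + g 0 := by
    intro z
    rw [IsometryEquiv.toRealLinearIsometryEquiv_apply]; ring
  obtain ⟨a, ha⟩ := linear_isometry_complex g.toRealLinearIsometryEquiv
  rcases ha with ha | ha
  · refine ⟨C, a, g 0, by simp, hC, ?_, hT⟩
    congr 1
    funext z
    rw [hg, ha]; simp [rotation_apply]
  · refine ⟨C.map ⟨_, conj_inj⟩, a, g 0, by simp, by rw [Finset.card_map, hC], ?_, hT⟩
    rw [← region_image conj_inj conj_cell, image_image]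
    congr 1
    funext z
    rw [hg, ha]; simp [rotation_apply]

/-- a tile whose rotation and translation preserve the grid is a polyomino of the grid -/
lemma aligned {C : Finset (ℤ × ℤ)} {α β : ℂ} (hα : α = 1 ∨ α = Complex.I ∨ α = -1 ∨ α = -Complex.I)
    (hβ : ∃ b, β = pt b) : ∃ D : Finset (ℤ × ℤ), D.card = C.card ∧
      (fun z => α * z + β) '' region C = region D := by
  obtain ⟨b, rfl⟩ := hβ
  have key : ∀ (C : Finset (ℤ × ℤ)) (γ : ℂ), ∃ D : Finset (ℤ × ℤ), D.card = C.card ∧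
      (fun z => (Complex.I * γ) * z) '' region C = (fun z => γ * z) '' region D := by
    intro C γ
    refine ⟨C.map ⟨_, mulI_inj⟩, by rw [Finset.card_map], ?_⟩
    rw [← region_image mulI_inj mulI_cell, image_image]
    congr 1; funext z; ring
  have h1 : ∀ (C : Finset (ℤ × ℤ)), (fun z => (1 : ℂ) * z) '' region C = region C := by
    intro C; simp
  have hrot : ∃ D : Finset (ℤ × ℤ), D.card = C.card ∧ (fun z => α * z) '' region C = region D := by
    rcases hα with rfl | rfl | rfl | rfl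
    · exact ⟨C, rfl, h1 C⟩
    · obtain ⟨D, hD, e⟩ := key C 1
      refine ⟨D, hD, ?_⟩
      rw [h1] at e; rw [← e]; congr 1; funext z; ring
    · obtain ⟨D, hD, e⟩ := key C Complex.I
      obtain ⟨D', hD', e'⟩ := key D 1
      refine ⟨D', by rw [hD', hD], ?_⟩
      rw [h1] at e'; rw [← e']
      have : (fun z => Complex.I * 1 * z) = (fun z : ℂ => Complex.I * z) := by funext z; ring
      rw [this, ← e]; congr 1; funext z; rw [Complex.I_mul_I]
    · obtain ⟨D, hD, e⟩ := key C (-1)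
      obtain ⟨D', hD', e'⟩ := key D Complex.I
      obtain ⟨D'', hD'', e''⟩ := key D' 1
      refine ⟨D'', by rw [hD'', hD', hD], ?_⟩
      rw [h1] at e''; rw [← e'']
      have h2 : (fun z => Complex.I * 1 * z) = (fun z : ℂ => Complex.I * z) := by funext z; ring
      rw [h2, ← e']
      have h3 : (fun z => Complex.I * Complex.I * z) = (fun z : ℂ => -1 * z) := by
        funext z; rw [Complex.I_mul_I]
      rw [h3, ← e]; congr 1; funext z; ring
  obtain ⟨D, hD, e⟩ := hrot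
  refine ⟨D.map ⟨_, add_inj b⟩, by rw [Finset.card_map, hD], ?_⟩
  rw [← region_image (add_inj b) (fun c => add_cell c b), ← e, image_image]

end Pool.Agent.H140.OM
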