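import Pool.Agent.H140.OM.Cells

namespace Pool.Agent.H140.OM
open Set Metric Filter Topology

/-- the cells of the 32-omino, each one with the neighbour at which it is attached (last one first) -/
def plist : List ((ℤ × ℤ) × (ℤ × ℤ)) :=
  [((5, 2), (5, 3)), ((5, 3), (5, 4)), ((5, 4), (5, 5)), ((6, 0), (7, 0)), ((7, 0), (8, 0)), ((8, 0), (9, 0)), ((9, 0), (10, 0)), ((10, 0), (10, 1)), ((10, 1), (10, 2)), ((10, 2), (10, 3)), ((10, 3), (10, 4)), ((10, 4), (10, 5)), ((10, 5), (9, 5)), ((9, 5), (8, 5)), ((8, 5), (7, 5)), ((7, 5), (6, 5)), ((6, 5), (5, 5)), ((5, 5), (4, 5)), ((4, 5), (3, 5)), ((3, 5), (2, 5)), ((2, 5), (1, 5)), ((1, 5), (0, 5)), ((0, 5), (0, 4)), ((0, 4), (0, 3)), ((0, 3), (0, 2)), ((0, 2), (0, 1)), ((0, 1), (0, 0)), ((0, 0), (1, 0)), ((1, 0), (2, 0)), ((2, 0), (3, 0)), ((3, 0), (4, 0)), ((4, 0), (4, 0))]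

def P : Finset (ℤ × ℤ) := (plist.map Prod.fst).toFinset

lemma P_card : P.card = 32 := by decide

lemma P_build : buildable plist := by decide

lemma P_disk : IsDisk (region P) := isDisk_of_buildable plist P_build

end Pool.Agent.H140.OM
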