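import Pool.Agent.H140.OM.Corner

namespace Pool.Agent.H140.OM
open Set Metric Filter Topology

/-- A tiling of the plane by `n`-ominoes: a countable family of sets congruent to `n`-ominoes which
cover the plane and have pairwise disjoint interiors. -/
structure IsTiling (n : ℕ) (𝒯 : Set (Set ℂ)) : Prop where
  countable : 𝒯.Countable
  tile : ∀ T ∈ 𝒯, ∃ R, IsOmino n R ∧ Congruent R T
  cover : ⋃₀ 𝒯 = univ
  disj : ∀ T ∈ 𝒯, ∀ T' ∈ 𝒯, T ≠ T' → Disjoint (interior T) (interior T')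

noncomputable def cx (v a z : ℂ) : ℝ := ((z - v) * (starRingEnd ℂ) a).re
noncomputable def cy (v a z : ℂ) : ℝ := ((z - v) * (starRingEnd ℂ) a).im

lemma cx_cont (v a : ℂ) : Continuous (cx v a) := by unfold cx; fun_prop
lemma cy_cont (v a : ℂ) : Continuous (cy v a) := by unfold cy; fun_prop

lemma nsq {a : ℂ} (ha : ‖a‖ = 1) : a.re * a.re + a.im * a.im = 1 := by
  have : Complex.normSq a = 1 := by rw [← Complex.sq_norm, ha]; norm_num
  rwa [Complex.normSq_apply] at this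

lemma coord {v a z : ℂ} (ha : ‖a‖ = 1) : z = v + cx v a z * a + cy v a z * (Complex.I * a) := by
  have := nsq ha
  apply Complex.ext
  · simp [cx, cy]; linear_combination (v.re - z.re) * this
  · simp [cx, cy]; linear_combination (v.im - z.im) * this

lemma coord_x {v a : ℂ} (ha : ‖a‖ = 1) (s t : ℝ) : cx v a (v + s * a + t * (Complex.I * a)) = s := by
  have := nsq ha
  simp [cx]; linear_combination s * this

lemma coord_y {v a : ℂ} (ha : ‖a‖ = 1) (s t : ℝ) : cy v a (v + s * a + t * (Complex.I * a)) = t := by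
  have := nsq ha
  simp [cy]; linear_combination t * this

lemma mem_Sq {v a z : ℂ} (ha : ‖a‖ = 1) : z ∈ Sq v a ↔
    (0 ≤ cx v a z ∧ cx v a z ≤ 1) ∧ (0 ≤ cy v a z ∧ cy v a z ≤ 1) := by
  constructor
  · rintro ⟨s, t, hs, ht, rfl⟩
    rw [coord_x ha, coord_y ha]; exact ⟨hs, ht⟩
  · rintro ⟨hs, ht⟩
    exact ⟨_, _, hs, ht, coord ha⟩

lemma Sq_closed {v a : ℂ} (ha : ‖a‖ = 1) : IsClosed (Sq v a) := by
  have : Sq v a = ({z | 0 ≤ cx v a z} ∩ {z | cx v a z ≤ 1}) ∩ ({z | 0 ≤ cy v a z} ∩ {z | cy v a z ≤ 1}) := by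
    ext z; rw [mem_Sq ha]; rfl
  rw [this]
  exact ((isClosed_le continuous_const (cx_cont v a)).inter (isClosed_le (cx_cont v a) continuous_const)).inter
    ((isClosed_le continuous_const (cy_cont v a)).inter (isClosed_le (cy_cont v a) continuous_const))

lemma oSq_interior {v a z : ℂ} (ha : ‖a‖ = 1) (h : (0 < cx v a z ∧ cx v a z < 1) ∧
    (0 < cy v a z ∧ cy v a z < 1)) : z ∈ interior (Sq v a) := by
  have ho : IsOpen (({z | 0 < cx v a z} ∩ {z | cx v a z < 1}) ∩ ({z | 0 < cy v a z} ∩ {z | cy v a z < 1})) :=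
    ((isOpen_lt continuous_const (cx_cont v a)).inter (isOpen_lt (cx_cont v a) continuous_const)).inter
    ((isOpen_lt continuous_const (cy_cont v a)).inter (isOpen_lt (cy_cont v a) continuous_const))
  refine interior_maximal ?_ ho ⟨⟨h.1.1, h.1.2⟩, h.2.1, h.2.2⟩
  rintro y ⟨⟨h1, h2⟩, h3, h4⟩
  rw [mem_Sq ha]
  exact ⟨⟨le_of_lt h1, le_of_lt h2⟩, le_of_lt h3, le_of_lt h4⟩

/-- the centre of a unit square -/
noncomputable def cen (v a : ℂ) : ℂ := v + ((1 / 2 : ℝ) : ℂ) * a + ((1 / 2 : ℝ) : ℂ) * (Complex.I * a)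

lemma cen_ball {v a : ℂ} (ha : ‖a‖ = 1) : ball (cen v a) (1 / 2) ⊆ interior (Sq v a) := by
  intro z hz
  rw [mem_ball, Complex.dist_eq] at hz
  have hc : ‖(z - cen v a) * (starRingEnd ℂ) a‖ < 1 / 2 := by
    rw [norm_mul, RCLike.norm_conj, ha, mul_one]; exact hz
  have h1 := (Complex.abs_re_le_norm _).trans_lt hc
  have h2 := (Complex.abs_im_le_norm _).trans_lt hc
  have e1 : ((z - cen v a) * (starRingEnd ℂ) a).re = cx v a z - 1 / 2 := by
    have := nsq ha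
    simp [cx, cen]; linear_combination (-1 / 2 : ℝ) * this
  have e2 : ((z - cen v a) * (starRingEnd ℂ) a).im = cy v a z - 1 / 2 := by
    have := nsq ha
    simp [cy, cen]; linear_combination (-1 / 2 : ℝ) * this
  rw [e1, abs_lt] at h1
  rw [e2, abs_lt] at h2
  exact oSq_interior ha ⟨⟨by linarith, by linarith⟩, by linarith, by linarith⟩

lemma cen_dist {v a z : ℂ} (ha : ‖a‖ = 1) (hz : z ∈ Sq v a) : dist z (cen v a) ≤ 1 := by
  obtain ⟨s, t, ⟨h1, h2⟩, ⟨h3, h4⟩, rfl⟩ := hz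
  rw [Complex.dist_eq]
  have e : v + s * a + t * (Complex.I * a) - cen v a =
      ((s - 1 / 2 : ℝ) : ℂ) * a + ((t - 1 / 2 : ℝ) : ℂ) * (Complex.I * a) := by
    unfold cen; push_cast; ring
  rw [e]
  refine (norm_add_le _ _).trans ?_
  rw [norm_mul, norm_mul, norm_mul, ha, Complex.norm_I, Complex.norm_real, Complex.norm_real,
    Real.norm_eq_abs, Real.norm_eq_abs]
  have a1 : |s - 1 / 2| ≤ 1 / 2 := abs_le.2 ⟨by linarith, by linarith⟩
  have a2 : |t - 1 / 2| ≤ 1 / 2 := abs_le.2 ⟨by linarith, by linarith⟩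
  linarith

lemma region_Sq {C : Finset (ℤ × ℤ)} {α β : ℂ} : (fun z => α * z + β) '' region C =
    ⋃ c ∈ C, Sq (α * pt c + β) α := by
  rw [image_region]
  simp only [image_cell]

/-- only finitely many tiles come near a point -/
theorem locally_finite {n : ℕ} {𝒯 : Set (Set ℂ)} (h : IsTiling n 𝒯) (p : ℂ) :
    {T ∈ 𝒯 | (T ∩ closedBall p 1).Nonempty}.Finite := by
  classical
  have key : ∀ T ∈ {T ∈ 𝒯 | (T ∩ closedBall p 1).Nonempty}, ∃ m : ℂ, dist m p ≤ 2 ∧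
      ball m (1 / 2) ⊆ interior T := by
    rintro T ⟨hT, z, hz1, hz2⟩
    obtain ⟨R, hR, hc⟩ := h.tile T hT
    obtain ⟨C, α, β, hα, -, rfl, -⟩ := tile_rep hR hc
    rw [region_Sq] at hz1 ⊢
    simp only [mem_iUnion] at hz1
    obtain ⟨c, hcC, hzc⟩ := hz1
    refine ⟨cen (α * pt c + β) α, ?_, ?_⟩
    · have h1 := cen_dist hα hzc
      rw [mem_closedBall] at hz2
      have := dist_triangle (cen (α * pt c + β) α) z p
      rw [dist_comm] at h1
      linarith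
    · refine (cen_ball hα).trans (interior_mono ?_)
      exact subset_biUnion_of_mem (u := fun c => Sq (α * pt c + β) α) hcC
  choose! m hm using key
  let k : Set ℂ → ℤ × ℤ := fun T => (⌊2 * (m T).re⌋, ⌊2 * (m T).im⌋)
  have hinj : InjOn k {T ∈ 𝒯 | (T ∩ closedBall p 1).Nonempty} := by
    intro T hT T' hT' hk
    by_contra hne
    have hd := h.disj T hT.1 T' hT'.1 hne
    obtain ⟨-, hb⟩ := hm T hT
    obtain ⟨-, hb'⟩ := hm T' hT'
    have k1 : ⌊2 * (m T).re⌋ = ⌊2 * (m T').re⌋ := congrArg Prod.fst hk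
    have k2 : ⌊2 * (m T).im⌋ = ⌊2 * (m T').im⌋ := congrArg Prod.snd hk
    have l1 := Int.abs_sub_lt_one_of_floor_eq_floor k1
    have l2 := Int.abs_sub_lt_one_of_floor_eq_floor k2
    rw [abs_lt] at l1 l2
    -- the midpoint
    have hdist : ‖m T - m T'‖ < 1 := by
      refine (Complex.norm_le_abs_re_add_abs_im _).trans_lt ?_
      have a1 : |(m T - m T').re| < 1 / 2 := by
        rw [Complex.sub_re, abs_lt]; constructor <;> linarith
      have a2 : |(m T - m T').im| < 1 / 2 := by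
        rw [Complex.sub_im, abs_lt]; constructor <;> linarith
      linarith
    set w := (m T + m T') / 2 with hw
    have w1 : w ∈ ball (m T) (1 / 2) := by
      rw [mem_ball, Complex.dist_eq]
      have : w - m T = -((m T - m T') / 2) := by rw [hw]; ring
      rw [this, norm_neg, norm_div]
      simp
      linarith
    have w2 : w ∈ ball (m T') (1 / 2) := by
      rw [mem_ball, Complex.dist_eq]
      have : w - m T' = (m T - m T') / 2 := by rw [hw]; ring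
      rw [this, norm_div]
      simp
      linarith
    exact (Set.disjoint_left.1 hd) (hb w1) (hb' w2)
  have himg : (k '' {T ∈ 𝒯 | (T ∩ closedBall p 1).Nonempty}).Finite := by
    refine ((Set.finite_Icc (⌊2 * (p.re - 2)⌋) (⌊2 * (p.re + 2)⌋)).prod
      (Set.finite_Icc (⌊2 * (p.im - 2)⌋) (⌊2 * (p.im + 2)⌋))).subset ?_
    rintro _ ⟨T, hT, rfl⟩
    obtain ⟨hd, -⟩ := hm T hT
    rw [Complex.dist_eq] at hd
    have h1 := (Complex.abs_re_le_norm _).trans hd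
    have h2 := (Complex.abs_im_le_norm _).trans hd
    rw [Complex.sub_re, abs_le] at h1
    rw [Complex.sub_im, abs_le] at h2
    refine ⟨⟨?_, ?_⟩, ?_, ?_⟩
    · exact Int.floor_le_floor (by linarith)
    · exact Int.floor_le_floor (by linarith)
    · exact Int.floor_le_floor (by linarith)
    · exact Int.floor_le_floor (by linarith)
  exact himg.of_finite_image hinj

lemma freq_finite {ι : Type*} {s : Set ι} (hs : s.Finite) {A : ι → Set ℂ} {z : ℕ → ℂ}
    (h : ∃ᶠ j in atTop, ∃ i ∈ s, z j ∈ A i) : ∃ i ∈ s, ∃ᶠ j in atTop, z j ∈ A i := by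
  by_contra hcon
  push Not at hcon
  apply h
  have : ∀ i ∈ s, ∀ᶠ j in atTop, z j ∉ A i := fun i hi => hcon i hi
  have h2 := (Filter.eventually_all_finite hs).2 this
  filter_upwards [h2] with j hj
  rintro ⟨i, hi, hz⟩
  exact hj i hi hz

/-- lattice points -/
def IsPt (z : ℂ) : Prop := ∃ b : ℤ × ℤ, z = pt b

lemma IsPt.add {z w : ℂ} (hz : IsPt z) (hw : IsPt w) : IsPt (z + w) := by
  obtain ⟨a, rfl⟩ := hz
  obtain ⟨b, rfl⟩ := hw
  exact ⟨a + b, by apply Complex.ext <;> simp [pt]⟩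

lemma IsPt.neg {z : ℂ} (hz : IsPt z) : IsPt (-z) := by
  obtain ⟨a, rfl⟩ := hz
  exact ⟨-a, by apply Complex.ext <;> simp [pt]⟩

lemma IsPt.mul {z w : ℂ} (hz : IsPt z) (hw : IsPt w) : IsPt (z * w) := by
  obtain ⟨a, rfl⟩ := hz
  obtain ⟨b, rfl⟩ := hw
  exact ⟨(a.1 * b.1 - a.2 * b.2, a.1 * b.2 + a.2 * b.1), by apply Complex.ext <;> simp [pt]⟩

lemma isPt_zero : IsPt 0 := ⟨0, by apply Complex.ext <;> simp [pt]⟩
lemma isPt_one : IsPt 1 := ⟨(1, 0), by apply Complex.ext <;> simp [pt]⟩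
lemma isPt_I : IsPt Complex.I := ⟨(0, 1), by apply Complex.ext <;> simp [pt]⟩

/-- the cell `c` is one of the squares of a tile which lies in the grid -/
def Known (n : ℕ) (𝒯 : Set (Set ℂ)) (c : ℤ × ℤ) : Prop :=
  ∃ D : Finset (ℤ × ℤ), region D ∈ 𝒯 ∧ D.card = n ∧ IsDisk (region D) ∧ c ∈ D

lemma ocell_region {D : Finset (ℤ × ℤ)} {q : ℤ × ℤ} {z : ℂ} (h1 : z ∈ ocell q) (h2 : z ∈ region D) :
    q ∈ D := by
  rw [mem_region] at h2
  obtain ⟨c, hc, hz⟩ := h2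
  rw [ocell_cell h1 hz]; exact hc

lemma ocell_interior {D : Finset (ℤ × ℤ)} {q : ℤ × ℤ} (hq : q ∈ D) : ocell q ⊆ interior (region D) := by
  refine interior_maximal ?_ (ocell_open q)
  intro z hz
  exact mem_region.2 ⟨q, hq, ocell_sub q hz⟩

/-- the step lemma: at a lattice point, two known cells in opposite quadrants make the cell between
them known -/
theorem step {n : ℕ} {𝒯 : Set (Set ℂ)} (h : IsTiling n 𝒯) {u : ℂ}
    (hu : u = 1 ∨ u = Complex.I ∨ u = -1 ∨ u = -Complex.I) {p q r₂ r₄ : ℤ × ℤ}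
    (hq : ∀ x y : ℝ, 0 < x → x < 1 → 0 < y → y < 1 → pt p + u * ⟨x, y⟩ ∈ ocell q)
    (h2 : ∀ x y : ℝ, -1 < x → x < 0 → 0 < y → y < 1 → pt p + u * ⟨x, y⟩ ∈ ocell r₂)
    (h4 : ∀ x y : ℝ, 0 < x → x < 1 → -1 < y → y < 0 → pt p + u * ⟨x, y⟩ ∈ ocell r₄)
    (k2 : Known n 𝒯 r₂) (k4 : Known n 𝒯 r₄) : Known n 𝒯 q := by
  have hun : ‖u‖ = 1 := by
    rcases hu with rfl | rfl | rfl | rfl <;> simp
  have hu0 : u ≠ 0 := by rintro rfl; simp at hun
  obtain ⟨D₂, hD₂, hc₂, hd₂, hr₂⟩ := k2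
  obtain ⟨D₄, hD₄, hc₄, hd₄, hr₄⟩ := k4
  let ε : ℕ → ℝ := fun j => 1 / ((j : ℝ) + 2)
  have hε0 : ∀ j, 0 < ε j := fun j => by positivity
  have hε1 : ∀ j, ε j ≤ 1 / 2 := fun j => by
    simp only [ε]
    apply one_div_le_one_div_of_le (by norm_num)
    have : (0 : ℝ) ≤ j := Nat.cast_nonneg j
    linarith
  let z : ℕ → ℂ := fun j => pt p + u * ⟨ε j, ε j⟩
  have hzq : ∀ j, z j ∈ ocell q := fun j =>
    hq _ _ (hε0 j) (by linarith [hε1 j]) (hε0 j) (by linarith [hε1 j])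
  have hlim : Tendsto z atTop (𝓝 (pt p)) := by
    have h1 : Tendsto ε atTop (𝓝 0) := by
      have := tendsto_one_div_add_atTop_nhds_zero_nat (𝕜 := ℝ)
      have h3 := this.comp (tendsto_add_atTop_nat 1)
      refine h3.congr fun j => ?_
      simp only [Function.comp, ε]
      push_cast; ring
    have h5 : Tendsto (fun j => pt p + u * (((ε j : ℝ) : ℂ) * (1 + Complex.I))) atTop
        (𝓝 (pt p + u * (((0 : ℝ) : ℂ) * (1 + Complex.I)))) := by
      refine Tendsto.add tendsto_const_nhds (Tendsto.mul tendsto_const_nhds (Tendsto.mul ?_ tendsto_const_nhds))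
      exact (Complex.continuous_ofReal.tendsto 0).comp h1
    have e : pt p + u * (((0 : ℝ) : ℂ) * (1 + Complex.I)) = pt p := by simp
    rw [e] at h5
    refine h5.congr fun j => ?_
    simp only [z]
    congr 2
    apply Complex.ext <;> simp
  have hzball : ∀ j, z j ∈ closedBall (pt p) 1 := by
    intro j
    rw [mem_closedBall, Complex.dist_eq]
    have : z j - pt p = u * ⟨ε j, ε j⟩ := by simp [z]
    rw [this, norm_mul, hun, one_mul]
    refine (Complex.norm_le_abs_re_add_abs_im _).trans ?_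
    simp only
    rw [abs_of_pos (hε0 j)]
    linarith [hε1 j]
  -- a tile containing infinitely many points
  have hfin := locally_finite h (pt p)
  have hfr : ∃ᶠ j in atTop, ∃ T ∈ {T ∈ 𝒯 | (T ∩ closedBall (pt p) 1).Nonempty}, z j ∈ id T := by
    refine (Eventually.of_forall fun j => ?_).frequently
    have : z j ∈ ⋃₀ 𝒯 := by rw [h.cover]; trivial
    obtain ⟨T, hT, hzT⟩ := this
    exact ⟨T, ⟨hT, z j, hzT, hzball j⟩, hzT⟩
  obtain ⟨T, hT, hTfr⟩ := freq_finite hfin hfr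
  simp only [id] at hTfr
  by_cases hT2 : T = region D₂
  · obtain ⟨j, hj⟩ := hTfr.exists
    rw [hT2] at hj
    exact ⟨D₂, hD₂, hc₂, hd₂, ocell_region (hzq j) hj⟩
  by_cases hT4 : T = region D₄
  · obtain ⟨j, hj⟩ := hTfr.exists
    rw [hT4] at hj
    exact ⟨D₄, hD₄, hc₄, hd₄, ocell_region (hzq j) hj⟩
  obtain ⟨R, hR, hcong⟩ := h.tile T hT.1
  obtain ⟨C, α, β, hα, hcard, hTe, hTd⟩ := tile_rep hR hcong
  have hfr2 : ∃ᶠ j in atTop, ∃ c ∈ (C : Set (ℤ × ℤ)), z j ∈ Sq (α * pt c + β) α := by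
    refine hTfr.mono fun j hj => ?_
    rw [hTe, region_Sq] at hj
    simp only [mem_iUnion] at hj
    obtain ⟨c, hc, hz⟩ := hj
    exact ⟨c, hc, hz⟩
  obtain ⟨c, hc, hcfr⟩ := freq_finite C.finite_toSet hfr2
  set v : ℂ := α * pt c + β with hv
  have hpX : pt p ∈ Sq v α := (Sq_closed hα).mem_of_frequently_of_tendsto hcfr hlim
  obtain ⟨j, hj⟩ := hcfr.exists
  have hXT : Sq v α ⊆ T := by
    rw [hTe, region_Sq]
    exact subset_biUnion_of_mem (u := fun c => Sq (α * pt c + β) α) hc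
  have hdis2 := h.disj T hT.1 _ hD₂ hT2
  have hdis4 := h.disj T hT.1 _ hD₄ hT4
  obtain ⟨s₀, t₀, hs₀, ht₀, e₀⟩ := hpX
  obtain ⟨s₁, t₁, hs₁, ht₁, e₁⟩ := hj
  have huu : u⁻¹ * u = 1 := inv_mul_cancel₀ hu0
  have ha' : ‖u⁻¹ * α‖ = 1 := by rw [norm_mul, norm_inv, hun, hα]; norm_num
  have hav : ∀ s t : ℝ, 0 < s → s < 1 → 0 < t → t < 1 →
      ¬ ((-1 < (u⁻¹ * (v - pt p) + s * (u⁻¹ * α) + t * (Complex.I * (u⁻¹ * α))).re ∧
          (u⁻¹ * (v - pt p) + s * (u⁻¹ * α) + t * (Complex.I * (u⁻¹ * α))).re < 0 ∧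
          0 < (u⁻¹ * (v - pt p) + s * (u⁻¹ * α) + t * (Complex.I * (u⁻¹ * α))).im ∧
          (u⁻¹ * (v - pt p) + s * (u⁻¹ * α) + t * (Complex.I * (u⁻¹ * α))).im < 1) ∨
         (0 < (u⁻¹ * (v - pt p) + s * (u⁻¹ * α) + t * (Complex.I * (u⁻¹ * α))).re ∧
          (u⁻¹ * (v - pt p) + s * (u⁻¹ * α) + t * (Complex.I * (u⁻¹ * α))).re < 1 ∧
          -1 < (u⁻¹ * (v - pt p) + s * (u⁻¹ * α) + t * (Complex.I * (u⁻¹ * α))).im ∧
          (u⁻¹ * (v - pt p) + s * (u⁻¹ * α) + t * (Complex.I * (u⁻¹ * α))).im < 0)) := by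
    intro s t hs1 hs2 ht1 ht2
    set w' := u⁻¹ * (v - pt p) + s * (u⁻¹ * α) + t * (Complex.I * (u⁻¹ * α)) with hw'
    set wz := v + s * α + t * (Complex.I * α) with hwz
    have hww : pt p + u * ⟨w'.re, w'.im⟩ = wz := by
      have : (⟨w'.re, w'.im⟩ : ℂ) = w' := by apply Complex.ext <;> simp
      rw [this, hw', hwz]
      linear_combination ((v - pt p) + s * α + t * (Complex.I * α)) * huu
    have hint : wz ∈ interior T := by
      refine interior_mono hXT ?_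
      apply oSq_interior hα
      rw [hwz, coord_x hα, coord_y hα]
      exact ⟨⟨hs1, hs2⟩, ht1, ht2⟩
    rintro (⟨a1, a2, a3, a4⟩ | ⟨a1, a2, a3, a4⟩)
    · have := h2 _ _ a1 a2 a3 a4
      rw [hww] at this
      exact (Set.disjoint_left.1 hdis2) hint (ocell_interior hr₂ this)
    · have := h4 _ _ a1 a2 a3 a4
      rw [hww] at this
      exact (Set.disjoint_left.1 hdis4) hint (ocell_interior hr₄ this)
  have e₀' : u⁻¹ * (v - pt p) + s₀ * (u⁻¹ * α) + t₀ * (Complex.I * (u⁻¹ * α)) = 0 := by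
    linear_combination (-u⁻¹) * e₀
  have e₁' : u⁻¹ * (v - pt p) + s₁ * (u⁻¹ * α) + t₁ * (Complex.I * (u⁻¹ * α)) =
      (ε j : ℂ) * (1 + Complex.I) := by
    have h6 : z j = pt p + u * ((ε j : ℂ) * (1 + Complex.I)) := by
      simp only [z]
      congr 2
      apply Complex.ext <;> simp
    rw [h6] at e₁
    linear_combination (-u⁻¹) * e₁ + ((ε j : ℂ) * (1 + Complex.I)) * huu
  have hcor := corner_norm ha' (hε0 j) hs₀.1 hs₀.2 ht₀.1 ht₀.2 e₀' hs₁.1 hs₁.2 ht₁.1 ht₁.2 e₁' hav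
  -- the tile is aligned
  have hiu : IsPt u := by
    rcases hu with rfl | rfl | rfl | rfl
    · exact isPt_one
    · exact isPt_I
    · exact isPt_one.neg
    · exact isPt_I.neg
  have hres : (u⁻¹ * α = 1 ∨ u⁻¹ * α = Complex.I ∨ u⁻¹ * α = -1 ∨ u⁻¹ * α = -Complex.I) ∧
      IsPt (u⁻¹ * (v - pt p)) := by
    rcases hcor with ⟨b1, b2⟩ | ⟨b1, b2⟩ | ⟨b1, b2⟩ | ⟨b1, b2⟩
    · exact ⟨Or.inl b2, b1 ▸ isPt_zero⟩
    · exact ⟨Or.inr (Or.inl b2), b1 ▸ isPt_one⟩
    · exact ⟨Or.inr (Or.inr (Or.inl b2)), b1 ▸ isPt_one.add isPt_I⟩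
    · exact ⟨Or.inr (Or.inr (Or.inr b2)), b1 ▸ isPt_I⟩
  obtain ⟨hα4, hvp⟩ := hres
  have hαu : α = u * (u⁻¹ * α) := by rw [← mul_assoc, mul_inv_cancel₀ hu0, one_mul]
  have hα' : α = 1 ∨ α = Complex.I ∨ α = -1 ∨ α = -Complex.I := by
    rcases hα4 with b | b | b | b <;> rw [b] at hαu <;> rcases hu with rfl | rfl | rfl | rfl <;>
      rw [hαu] <;> simp
  have hαpt : IsPt α := by
    rcases hα' with b | b | b | b <;> rw [b]
    · exact isPt_one
    · exact isPt_I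
    · exact isPt_one.neg
    · exact isPt_I.neg
  have hβ : IsPt β := by
    have h7 : IsPt (u * (u⁻¹ * (v - pt p))) := hiu.mul hvp
    have e7 : u * (u⁻¹ * (v - pt p)) = v - pt p := by
      rw [← mul_assoc, mul_inv_cancel₀ hu0, one_mul]
    rw [e7] at h7
    have h8 : β = (v - pt p) + pt p + -(α * pt c) := by rw [hv]; ring
    rw [h8]
    exact (h7.add ⟨p, rfl⟩).add (hαpt.mul ⟨c, rfl⟩).neg
  obtain ⟨D, hDc, hDe⟩ := aligned (C := C) hα' hβ
  rw [hDe] at hTe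
  subst hTe
  exact ⟨D, hT.1, by rw [hDc, hcard], hTd, ocell_region (hzq j) (hXT ⟨s₁, t₁, hs₁, ht₁, e₁⟩)⟩

end Pool.Agent.H140.OM
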